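import Pool.Agent.LevelRate.System3
import Pool.Agent.LevelRec.Growth

/-!
# The rate theorem
-/

namespace LevelRate

open LevelLower

theorem ce_bound (q : ℕ) (K : ℕ) :
    4 * (ce (4 * q) K).1 + 5 * (ce (4 * q) K).2 ≤ 4 * (33 * q) ^ K := by
  induction K with
  | zero => simp [ce]
  | succ K ih =>
    set c := (ce (4 * q) K).1 with hc
    set e := (ce (4 * q) K).2 with he
    have h1 : (ce (4 * q) (K + 1)).1 = 4 * q * c + 3 * (4 * q - 1) * (2 * c + 3 * e) := rfl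
    have h2 : (ce (4 * q) (K + 1)).2 = 4 * q * (c + e) := rfl
    rw [h1, h2, pow_succ]
    have h3 : 3 * (4 * q - 1) * (2 * c + 3 * e) ≤ 3 * (4 * q) * (2 * c + 3 * e) := by
      apply Nat.mul_le_mul_right
      omega
    have h4 : 33 * q * (4 * c + 5 * e) ≤ 33 * q * (4 * (33 * q) ^ K) := Nat.mul_le_mul_left _ ih
    nlinarith [Nat.zero_le (q * e)]

theorem numer (l : ℕ) (hl : 2 ≤ l) :
    (33 * 2 ^ (l - 2)) ^ (40 * l) < (4 ^ l) ^ (20 * l + 61) := by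
  obtain ⟨k, rfl⟩ := Nat.exists_eq_add_of_le hl
  have h1 : 33 ^ 20 < 2 ^ 101 := by norm_num
  have h2 : (33 ^ 20) ^ (2 * (2 + k)) < (2 ^ 101) ^ (2 * (2 + k)) :=
    Nat.pow_lt_pow_left h1 (by omega)
  have e1 : 2 + k - 2 = k := by omega
  have e2 : (33 * 2 ^ k) ^ (40 * (2 + k)) =
      (33 ^ 20) ^ (2 * (2 + k)) * 2 ^ (k * (40 * (2 + k))) := by
    rw [mul_pow, ← pow_mul, ← pow_mul]
    congr 2
    ring
  have e3 : (4 ^ (2 + k)) ^ (20 * (2 + k) + 61) =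
      (2 ^ 101) ^ (2 * (2 + k)) * 2 ^ (k * (40 * (2 + k))) := by
    rw [← pow_mul, ← pow_mul, ← pow_add, show (4 : ℕ) = 2 ^ 2 by norm_num, ← pow_mul]
    congr 1
    ring
  rw [e1, e2, e3]
  exact Nat.mul_lt_mul_of_pos_right h2 (by positivity)

theorem rate_growth (l : ℕ) (hl : 2 ≤ l) :
    ∃ n₀ : ℕ, ∀ n ≥ n₀, ∀ s' ≥ 6 * l + 4,
      (n : ℝ) ^ (((40 * l : ℕ) : ℝ) / ((20 * l + 61 : ℕ) : ℝ)) ≤ Psi s' n := by
  have hq : (2 : ℕ) ^ l = 4 * 2 ^ (l - 2) := by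
    obtain ⟨k, rfl⟩ := Nat.exists_eq_add_of_le hl
    rw [pow_add, Nat.add_sub_cancel_left]
    norm_num
  have hq1 : 1 ≤ 2 ^ (l - 2) := Nat.one_le_two_pow
  refine LevelRec.growth (s := 6 * l + 4) (h := 4 * (33 * 2 ^ (l - 2))) (H := 33 * 2 ^ (l - 2))
    (R := 4 ^ l) (C := 1) (by omega) Nat.one_pos (by omega) (by positivity) ?_ (by omega)
    (numer l hl)
  intro K
  have h1 := ce_bound (2 ^ (l - 2)) (K + 1)
  rw [← hq] at h1
  obtain ⟨T, h2, h3⟩ := rate_sys l (by omega) (K + 1) (by omega)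
    (4 * (33 * 2 ^ (l - 2)) * (33 * 2 ^ (l - 2)) ^ K) (by
      rw [pow_succ] at h1
      nlinarith [h1])
  refine ⟨T, ?_, h3⟩
  have h4 : 2 ≤ 4 ^ l := by
    calc 2 ≤ 4 ^ 1 := by norm_num
      _ ≤ 4 ^ l := Nat.pow_le_pow_right (by norm_num) (by omega)
  have h5 : 1 ≤ (4 ^ l) ^ K := Nat.one_le_pow _ _ (by omega)
  rw [pow_succ] at h2
  nlinarith

/-- **The rate theorem.** -/
theorem main_rate (s : ℕ) (hs : 16 ≤ s) :
    ∃ n₀ : ℕ, ∀ n ≥ n₀, (n : ℝ) ^ (2 - 37 / (s : ℝ)) ≤ Psi s n := by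
  obtain ⟨l, hl, h1, h2⟩ : ∃ l, 2 ≤ l ∧ 6 * l + 4 ≤ s ∧ s ≤ 6 * l + 9 :=
    ⟨(s - 4) / 6, by omega, by omega, by omega⟩
  obtain ⟨n₀, h⟩ := rate_growth l hl
  refine ⟨max n₀ 1, fun n hn => le_trans ?_ (h n (le_of_max_le_left hn) s h1)⟩
  have hn1 : (1 : ℝ) ≤ n := by exact_mod_cast le_of_max_le_right hn
  apply Real.rpow_le_rpow_of_exponent_le hn1
  have hs0 : (0 : ℝ) < s := by
    have : 0 < s := by omega
    exact_mod_cast this
  have hl0 : (0 : ℝ) < ((20 * l + 61 : ℕ) : ℝ) := by positivity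
  rw [sub_le_iff_le_add, ← sub_le_iff_le_add', le_div_iff₀ hs0]
  have h3 : (s : ℝ) ≤ 6 * l + 9 := by exact_mod_cast h2
  have h4 : (2 : ℝ) - ((40 * l : ℕ) : ℝ) / ((20 * l + 61 : ℕ) : ℝ) = 122 / (20 * l + 61) := by
    push_cast
    field_simp
    ring
  rw [h4, div_mul_eq_mul_div, div_le_iff₀ (by positivity)]
  have h5 : (0 : ℝ) ≤ l := Nat.cast_nonneg l
  nlinarith

end LevelRate
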