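import Pool.Agent.LevelRate.Defs

/-!
# The Z-order
-/

namespace LevelRate

theorem zx_eq (t : ℕ) : zx t = t % 2 + 2 * zx (t / 4) := by
  cases t with
  | zero => simp [zx]
  | succ n => rw [zx]

theorem zy_eq (t : ℕ) : zy t = t / 2 % 2 + 2 * zy (t / 4) := by
  cases t with
  | zero => simp [zy]
  | succ n => rw [zy]

theorem zx_div4 (t : ℕ) : zx (t / 4) = zx t / 2 := by
  rw [zx_eq t]
  omega

theorem zy_div4 (t : ℕ) : zy (t / 4) = zy t / 2 := by
  rw [zy_eq t]
  omega

theorem zx_div (t k : ℕ) : zx (t / 4 ^ k) = zx t / 2 ^ k := by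
  induction k with
  | zero => simp
  | succ k ih => rw [pow_succ, ← Nat.div_div_eq_div_mul, zx_div4, ih, pow_succ,
      Nat.div_div_eq_div_mul]

theorem zy_div (t k : ℕ) : zy (t / 4 ^ k) = zy t / 2 ^ k := by
  induction k with
  | zero => simp
  | succ k ih => rw [pow_succ, ← Nat.div_div_eq_div_mul, zy_div4, ih, pow_succ,
      Nat.div_div_eq_div_mul]

theorem z_mono {p q : ℕ} (hx : zx p ≤ zx q) (hy : zy p ≤ zy q) : p ≤ q := by
  induction p using Nat.strong_induction_on generalizing q with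
  | _ p ih =>
    rcases Nat.eq_zero_or_pos p with h0 | h0
    · omega
    have h1 := ih (p / 4) (by omega) (q := q / 4)
      (by rw [zx_div4, zx_div4]; exact Nat.div_le_div_right hx)
      (by rw [zy_div4, zy_div4]; exact Nat.div_le_div_right hy)
    rcases lt_or_eq_of_le h1 with h2 | h2
    · omega
    · have h3 := zx_eq p
      have h4 := zx_eq q
      have h5 := zy_eq p
      have h6 := zy_eq q
      rw [h2] at h3 h5
      omega

theorem z_inj {p q : ℕ} (hx : zx p = zx q) (hy : zy p = zy q) : p = q :=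
  le_antisymm (z_mono hx.le hy.le) (z_mono hx.ge hy.ge)

theorem zx_zero : zx 0 = 0 := by simp [zx]

theorem zy_zero : zy 0 = 0 := by simp [zy]

theorem zx_lt {t n : ℕ} (h : t < 4 ^ n) : zx t < 2 ^ n := by
  have h1 : t / 4 ^ n = 0 := Nat.div_eq_of_lt h
  have h2 := zx_div t n
  rw [h1, zx_zero] at h2
  have h3 : 0 < 2 ^ n := by positivity
  exact (Nat.div_eq_zero_iff_lt h3).1 h2.symm

theorem zy_lt {t n : ℕ} (h : t < 4 ^ n) : zy t < 2 ^ n := by
  have h1 : t / 4 ^ n = 0 := Nat.div_eq_of_lt h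
  have h2 := zy_div t n
  rw [h1, zy_zero] at h2
  have h3 : 0 < 2 ^ n := by positivity
  exact (Nat.div_eq_zero_iff_lt h3).1 h2.symm

/-- the last point of a square -/
theorem z_last (n c : ℕ) : zx (4 ^ n * c + (4 ^ n - 1)) = 2 ^ n * zx c + (2 ^ n - 1) ∧
    zy (4 ^ n * c + (4 ^ n - 1)) = 2 ^ n * zy c + (2 ^ n - 1) := by
  induction n with
  | zero => simp
  | succ n ih =>
    have h4 : 0 < 4 ^ n := by positivity
    have h2 : 0 < 2 ^ n := by positivity
    have e1 : 4 ^ (n + 1) * c + (4 ^ (n + 1) - 1) = 4 * (4 ^ n * c + (4 ^ n - 1)) + 3 := by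
      rw [pow_succ]
      have : 4 ^ n * 4 * c = 4 * (4 ^ n * c) := by ring
      omega
    have e2 : (4 * (4 ^ n * c + (4 ^ n - 1)) + 3) / 4 = 4 ^ n * c + (4 ^ n - 1) := by omega
    constructor
    · rw [e1, zx_eq, e2, ih.1, pow_succ]
      have : 2 ^ n * 2 * zx c = 2 * (2 ^ n * zx c) := by ring
      omega
    · rw [e1, zy_eq, e2, ih.2, pow_succ]
      have : 2 ^ n * 2 * zy c = 2 * (2 ^ n * zy c) := by ring
      omega

end LevelRate
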