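import Pool.Agent.LevelRate.Scan
import Pool.Agent.LevelRate.ZOrd

/-!
# Sign changes inside one cell
-/

namespace LevelRate

open LevelLower

theorem Xc_eq (l J t : ℕ) : Xc l J t = zx (t / 4 ^ (l * J)) := by
  rw [Xc, zx_div, pow_mul]

theorem Yc_eq (l J t : ℕ) : Yc l J t = zy (t / 4 ^ (l * J)) := by
  rw [Yc, zy_div, pow_mul]

/-- the geometry of two mixed squares -/
theorem mixed_squares {α w B P Q : ℤ} (hα : α = 0 ∨ 2 ≤ α) (hw : w ≤ α) (hB : 0 < B)
    (h1 : 0 < B * (2 * Q - P) + 3 * (B - 1)) (h2 : 0 < B * (P - 2 * Q) + 3 * (B - 1))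
    (h3 : B * (α * P - Q) ≤ w + (α + 1) * (B - 1))
    (h4 : B * (Q - α * P) ≤ w + (α + 1) * (B - 1)) (h5 : (P + Q) % 3 = 0) : P = 0 ∧ Q = 0 := by
  have k1 : -3 < 2 * Q - P := by
    by_contra h
    have : B * (2 * Q - P) ≤ B * (-3) := mul_le_mul_of_nonneg_left (by omega) hB.le
    omega
  have k2 : -3 < P - 2 * Q := by
    by_contra h
    have : B * (P - 2 * Q) ≤ B * (-3) := mul_le_mul_of_nonneg_left (by omega) hB.le
    omega
  have k3 : α * P - Q < α + 1 := by
    by_contra h
    have h6 : B * (α + 1) ≤ B * (α * P - Q) := mul_le_mul_of_nonneg_left (by omega) hB.le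
    have h7 : B * (α + 1) ≤ w + (α + 1) * (B - 1) := h6.trans h3
    have h8 : (α + 1) * (B - 1) = B * (α + 1) - (α + 1) := by ring
    omega
  have k4 : Q - α * P < α + 1 := by
    by_contra h
    have h6 : B * (α + 1) ≤ B * (Q - α * P) := mul_le_mul_of_nonneg_left (by omega) hB.le
    have h7 : B * (α + 1) ≤ w + (α + 1) * (B - 1) := h6.trans h4
    have h8 : (α + 1) * (B - 1) = B * (α + 1) - (α + 1) := by ring
    omega
  rcases hα with rfl | hα
  · simp only [zero_mul] at k3 k4
    omega
  · have hP1 : P ≤ 2 := by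
      by_contra h
      have : 2 * (P - 1) ≤ α * (P - 1) := mul_le_mul_of_nonneg_right hα (by omega)
      have e : α * (P - 1) = α * P - α := by ring
      omega
    have hP2 : -2 ≤ P := by
      by_contra h
      have : 2 * (-P - 1) ≤ α * (-P - 1) := mul_le_mul_of_nonneg_right hα (by omega)
      have e : α * (-P - 1) = -(α * P) - α := by ring
      omega
    interval_cases P <;> omega

theorem cell_count {l J c N : ℕ} {α w : ℤ} (hα : α = 0 ∨ 2 ≤ α) (hw : w ≤ α) (f : ℕ → ℤ)
    (hcell : ∀ t, f t ≠ 0 → t / 4 ^ (l * (J + 1)) = c)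
    (hK : ∀ p q, f p = 1 → f q = -1 →
      2 * (Yc l J p : ℤ) - Xc l J p < 2 * (Yc l J q : ℤ) - Xc l J q)
    (hF : ∀ p q, f p = 1 → f q = -1 →
      α * ((Xc l J q : ℤ) - Xc l J p) - ((Yc l J q : ℤ) - Yc l J p) ≤ w)
    (hU : ∀ q t, f q = -1 → t / 4 ^ (l * (J + 1)) = c → Xc l J t < Xc l J q → zy q ≤ zy t →
      f t = -1) :
    cDU f N ≤ 3 * l := by
  classical
  rw [cDU_eq_card]
  -- the starting point of the change at `q`
  have hex : ∀ q, f q = -1 ∧ lastNZ f q = 1 → ∃ p < q, f p = 1 ∧ ∀ r, p < r → r < q → f r = 0 := by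
    intro q hq
    obtain ⟨p, h1, h2, h3⟩ := lastNZ_spec (f := f) (q := q) (by rw [hq.2]; norm_num)
    exact ⟨p, h1, by rw [h2, hq.2], h3⟩
  choose! pp hpp1 hpp2 hpp3 using hex
  -- the level of the change
  have hlev : ∀ q, f q = -1 ∧ lastNZ f q = 1 → ∃ ν, ν < l ∧
      pp q / 4 ^ (l * J + ν) ≠ q / 4 ^ (l * J + ν) ∧
      pp q / 4 ^ (l * J + (ν + 1)) = q / 4 ^ (l * J + (ν + 1)) := by
    intro q hq
    have hP : ∃ ν, pp q / 4 ^ (l * J + ν) = q / 4 ^ (l * J + ν) := by
      refine ⟨l, ?_⟩
      have e : l * J + l = l * (J + 1) := by ring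
      rw [e, hcell _ (by rw [hpp2 q hq]; norm_num), hcell _ (by rw [hq.1]; norm_num)]
    have h0 : pp q / 4 ^ (l * J + 0) ≠ q / 4 ^ (l * J + 0) := by
      intro h
      have h1 := hK _ _ (hpp2 q hq) hq.1
      rw [add_zero] at h
      rw [Xc_eq, Xc_eq, Yc_eq, Yc_eq, h] at h1
      omega
    have h1 := Nat.find_spec hP
    have h2 : Nat.find hP ≠ 0 := fun h => h0 (by rw [h] at h1; exact h1)
    obtain ⟨ν, hν⟩ := Nat.exists_eq_succ_of_ne_zero h2
    refine ⟨ν, ?_, Nat.find_min hP (by omega), ?_⟩
    · have h3 : Nat.find hP ≤ l := Nat.find_min' hP (by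
        have e : l * J + l = l * (J + 1) := by ring
        rw [e, hcell _ (by rw [hpp2 q hq]; norm_num), hcell _ (by rw [hq.1]; norm_num)])
      omega
    · rw [hν] at h1
      exact h1
  choose! ν hν1 hν2 hν3 using hlev
  -- the change crosses the horizontal middle line of its square
  have hsplit : ∀ q, f q = -1 ∧ lastNZ f q = 1 →
      pp q / 4 ^ (l * J + ν q) < 4 * (q / 4 ^ (l * J + (ν q + 1))) + 2 ∧
      4 * (q / 4 ^ (l * J + (ν q + 1))) + 2 ≤ q / 4 ^ (l * J + ν q) := by
    intro q hq
    have hn4 : 0 < 4 ^ (l * J + ν q) := by positivity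
    have e1 : ∀ t, t / 4 ^ (l * J + (ν q + 1)) = t / 4 ^ (l * J + ν q) / 4 := by
      intro t
      rw [← add_assoc, pow_succ, Nat.div_div_eq_div_mul]
    have h1 : pp q / 4 ^ (l * J + ν q) ≤ q / 4 ^ (l * J + ν q) :=
      Nat.div_le_div_right (hpp1 q hq).le
    have h2 := hν2 q hq
    have h3 := hν3 q hq
    rw [e1, e1] at h3
    rw [e1]
    obtain ⟨a, ha⟩ : ∃ a, a = pp q / 4 ^ (l * J + ν q) := ⟨_, rfl⟩
    obtain ⟨b, hb⟩ : ∃ b, b = q / 4 ^ (l * J + ν q) := ⟨_, rfl⟩
    rw [← ha, ← hb] at h1 h2 h3 ⊢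
    by_contra hcon
    have hab : b = a + 1 ∧ a % 2 = 0 := by omega
    have hx : zx b = zx a + 1 := by
      rw [zx_eq b, zx_eq a, h3]
      omega
    have hy : zy b = zy a := by
      rw [zy_eq b, zy_eq a, h3]
      omega
    obtain ⟨t, ht⟩ : ∃ t, t = 4 ^ (l * J + ν q) * a + (4 ^ (l * J + ν q) - 1) := ⟨_, rfl⟩
    have hta : t / 4 ^ (l * J + ν q) = a := by
      rw [ht, Nat.mul_add_div hn4, Nat.div_eq_of_lt (by omega)]
      rfl
    have hqb := Nat.div_mul_le_self q (4 ^ (l * J + ν q))
    rw [← hb, hab.1, mul_comm, Nat.mul_add, mul_one] at hqb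
    have htq : t < q := by omega
    have hpt : pp q ≤ t := by
      have h4 := Nat.lt_mul_div_succ (pp q) hn4
      rw [← ha, Nat.mul_add, mul_one] at h4
      omega
    have hct : t / 4 ^ (l * (J + 1)) = c := by
      have h5 := hcell (pp q) (by rw [hpp2 q hq]; norm_num)
      have e : l * (J + 1) = (l * J + ν q) + (l - ν q) := by
        have := hν1 q hq
        have e' : l * (J + 1) = l * J + l := by ring
        omega
      rw [e, pow_add, ← Nat.div_div_eq_div_mul] at h5 ⊢
      rw [hta]
      rw [← ha] at h5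
      exact h5
    have hXt : Xc l J t < Xc l J q := by
      by_contra hge
      have h6 := Nat.div_le_div_right (c := 2 ^ ν q) (not_lt.1 hge)
      rw [Xc_eq, Xc_eq, ← zx_div, ← zx_div, Nat.div_div_eq_div_mul, Nat.div_div_eq_div_mul,
        ← pow_add, hta, ← hb] at h6
      omega
    have hYt : zy q ≤ zy t := by
      have h7 := (z_last (l * J + ν q) a).2
      rw [← ht] at h7
      have h8 := zy_div q (l * J + ν q)
      rw [← hb, hy] at h8
      have hn2 : 0 < 2 ^ (l * J + ν q) := by positivity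
      have h9 := Nat.lt_mul_div_succ (zy q) hn2
      rw [← h8, Nat.mul_add, mul_one] at h9
      omega
    have hft := hU q t hq.1 hct hXt hYt
    have hne : pp q ≠ t := fun h => by
      have := hpp2 q hq
      rw [h, hft] at this
      norm_num at this
    have := hpp3 q hq t (by omega) htq
    rw [hft] at this
    norm_num at this
  -- the map
  have hcard : ((Finset.range N).filter (fun q => f q = -1 ∧ lastNZ f q = 1)).card ≤
      (Finset.range l ×ˢ Finset.range 3).card := by
    refine Finset.card_le_card_of_injOn (fun q => (ν q,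
      (zx (q / 4 ^ (l * J + (ν q + 1))) + zy (q / 4 ^ (l * J + (ν q + 1)))) % 3)) ?_ ?_
    · intro q hq
      rw [Finset.mem_coe, Finset.mem_filter] at hq
      rw [Finset.mem_coe, Finset.mem_product, Finset.mem_range, Finset.mem_range]
      exact ⟨hν1 q hq.2, Nat.mod_lt _ (by norm_num)⟩
    · -- two changes with the same image
      have key : ∀ q q', (f q = -1 ∧ lastNZ f q = 1) → (f q' = -1 ∧ lastNZ f q' = 1) →
          ν q = ν q' → (zx (q / 4 ^ (l * J + (ν q + 1))) + zy (q / 4 ^ (l * J + (ν q + 1)))) % 3 =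
          (zx (q' / 4 ^ (l * J + (ν q + 1))) + zy (q' / 4 ^ (l * J + (ν q + 1)))) % 3 →
          ¬ q < q' := by
        intro q q' hq hq' hνν hmod hlt
        have hs1 := hsplit q hq
        have hs2 := hsplit q' hq'
        rw [← hνν] at hs2
        have hsame : q / 4 ^ (l * J + (ν q + 1)) = q' / 4 ^ (l * J + (ν q + 1)) := by
          have hp3 := hν3 q hq
          have hp3' := hν3 q' hq'
          rw [← hνν] at hp3'
          obtain ⟨a, ha⟩ : ∃ a, a = q / 4 ^ (l * J + (ν q + 1)) := ⟨_, rfl⟩
          obtain ⟨a', ha'⟩ : ∃ a', a' = q' / 4 ^ (l * J + (ν q + 1)) := ⟨_, rfl⟩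
          rw [← ha] at hp3 hmod ⊢
          rw [← ha'] at hp3' hmod ⊢
          -- coordinates of a point in a square
          have hX : ∀ t s, t / 4 ^ (l * J + (ν q + 1)) = s →
              2 ^ (ν q + 1) * zx s ≤ Xc l J t ∧ Xc l J t < 2 ^ (ν q + 1) * zx s + 2 ^ (ν q + 1) ∧
              2 ^ (ν q + 1) * zy s ≤ Yc l J t ∧ Yc l J t < 2 ^ (ν q + 1) * zy s + 2 ^ (ν q + 1) := by
            intro t s hts
            have hpos : 0 < 2 ^ (ν q + 1) := by positivity
            have ex : zx s = Xc l J t / 2 ^ (ν q + 1) := by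
              rw [Xc_eq, ← zx_div, Nat.div_div_eq_div_mul, ← pow_add, hts]
            have ey : zy s = Yc l J t / 2 ^ (ν q + 1) := by
              rw [Yc_eq, ← zy_div, Nat.div_div_eq_div_mul, ← pow_add, hts]
            rw [ex, ey]
            refine ⟨Nat.mul_div_le _ _, ?_, Nat.mul_div_le _ _, ?_⟩
            · have := Nat.lt_mul_div_succ (Xc l J t) hpos
              rwa [Nat.mul_add, mul_one] at this
            · have := Nat.lt_mul_div_succ (Yc l J t) hpos
              rwa [Nat.mul_add, mul_one] at this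
          obtain ⟨B, hB⟩ : ∃ B : ℕ, B = 2 ^ (ν q + 1) := ⟨_, rfl⟩
          have hBpos : 0 < B := by rw [hB]; positivity
          rw [← hB] at hX
          have x1 := hX _ _ hp3
          have x2 := hX _ _ ha.symm
          have x3 := hX _ _ hp3'
          have x4 := hX _ _ ha'.symm
          have c1 := hK _ _ (hpp2 q hq) hq'.1
          have c2 := hK _ _ (hpp2 q' hq') hq.1
          have c3 := hF _ _ (hpp2 q hq) hq'.1
          have c4 := hF _ _ (hpp2 q' hq') hq.1
          obtain ⟨P, hP⟩ : ∃ P : ℤ, P = zx a' - zx a := ⟨_, rfl⟩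
          obtain ⟨Q, hQ⟩ : ∃ Q : ℤ, Q = zy a' - zy a := ⟨_, rfl⟩
          zify at x1 x2 x3 x4
          have eP : (B : ℤ) * P = B * zx a' - B * zx a := by rw [hP]; ring
          have eQ : (B : ℤ) * Q = B * zy a' - B * zy a := by rw [hQ]; ring
          have hα0 : 0 ≤ α := by omega
          have g1 : (B : ℤ) * P - (B - 1) ≤ Xc l J q' - Xc l J (pp q) := by omega
          have g2 : -((B : ℤ) * P) - (B - 1) ≤ Xc l J q - Xc l J (pp q') := by omega
          have g3 : (Yc l J q' : ℤ) - Yc l J (pp q) ≤ B * Q + (B - 1) := by omega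
          have g4 : (Yc l J q : ℤ) - Yc l J (pp q') ≤ -(B * Q) + (B - 1) := by omega
          have m1 := mul_le_mul_of_nonneg_left g1 hα0
          have m2 := mul_le_mul_of_nonneg_left g2 hα0
          have r := mixed_squares (α := α) (w := w) (B := B) (P := P) (Q := Q) hα hw
            (by exact_mod_cast hBpos)
            (by
              have e : (B : ℤ) * (2 * Q - P) + 3 * (B - 1) = 2 * (B * Q) - B * P + 3 * (B - 1) := by
                ring
              rw [e]
              omega)
            (by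
              have e : (B : ℤ) * (P - 2 * Q) + 3 * (B - 1) = B * P - 2 * (B * Q) + 3 * (B - 1) := by
                ring
              rw [e]
              omega)
            (by
              have e : (B : ℤ) * (α * P - Q) = α * (B * P - (B - 1)) + α * (B - 1) - B * Q := by
                ring
              have e' : (α + 1) * ((B : ℤ) - 1) = α * (B - 1) + (B - 1) := by ring
              rw [e, e']
              linarith)
            (by
              have e : (B : ℤ) * (Q - α * P) = α * (-(B * P) - (B - 1)) + α * (B - 1) + B * Q := by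
                ring
              have e' : (α + 1) * ((B : ℤ) - 1) = α * (B - 1) + (B - 1) := by ring
              rw [e, e']
              linarith)
            (by omega)
          exact z_inj (by omega) (by omega)
        rw [← hsame] at hs2
        -- `pp q' < middle ≤ q`
        have h3 : pp q' < q := by
          by_contra h
          have := Nat.div_le_div_right (c := 4 ^ (l * J + ν q)) (not_lt.1 h)
          omega
        have h4 := hpp3 q' hq' q h3 hlt
        rw [hq.1] at h4
        norm_num at h4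
      intro q hq q' hq' heq
      rw [Finset.mem_coe, Finset.mem_filter] at hq hq'
      rw [Prod.mk.injEq] at heq
      obtain ⟨e1, e2⟩ := heq
      rcases lt_trichotomy q q' with h | h | h
      · exact absurd h (key q q' hq.2 hq'.2 e1 (by rw [e2, e1]))
      · exact h
      · exact absurd h (key q' q hq'.2 hq.2 e1.symm (by rw [← e2, ← e1]))
  rw [Finset.card_product, Finset.card_range, Finset.card_range] at hcard
  omega

end LevelRate
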