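import Pool.Agent.LevelRate.Scan

/-!
# Only one cell sees both signs
-/

namespace LevelRate

open LevelLower

theorem ph_of_cells {M N : ℕ} (c : ℕ → ℕ) (hc : Monotone c) (f : ℕ → ℤ)
    (hf : ∀ t, f t = -1 ∨ f t = 0 ∨ f t = 1)
    (hlaw : (∀ p q, f p = 1 → f q = -1 → c q ≤ c p) ∨ (∀ p q, f p = 1 → f q = -1 → c p ≤ c q))
    (hin : ∀ c₀, cDU (fun t => if c t = c₀ then f t else 0) N ≤ M) :
    ∃ p, Ph f 0 N p (p + (2 * M + 3)) := by
  classical
  -- the mixed cell
  obtain ⟨c₀, hc₀⟩ : ∃ c₀, ∀ p q, f p = 1 → f q = -1 → c p = c q → c p = c₀ := by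
    by_cases h : ∃ p q, f p = 1 ∧ f q = -1 ∧ c p = c q
    · obtain ⟨p, q, hp, hq, hpq⟩ := h
      refine ⟨c p, fun p' q' hp' hq' hpq' => ?_⟩
      rcases hlaw with h | h
      · have h1 := h p q' hp hq'
        have h2 := h p' q hp' hq
        omega
      · have h1 := h p q' hp hq'
        have h2 := h p' q hp' hq
        omega
    · exact ⟨0, fun p q hp hq hpq => absurd ⟨p, q, hp, hq, hpq⟩ h⟩
  obtain ⟨g, hg⟩ : ∃ g : ℕ → ℤ, g = fun t => if c t = c₀ then f t else 0 := ⟨_, rfl⟩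
  have hgt : ∀ t, c t = c₀ → g t = f t := fun t ht => by rw [hg]; exact if_pos ht
  have hg0 : ∀ t, f t = 0 → g t = 0 := fun t ht => by
    rw [hg]
    dsimp only
    split_ifs
    · exact ht
    · rfl
  have hg' : ∀ t, g t = -1 ∨ g t = 0 ∨ g t = 1 := fun t => by
    rw [hg]
    dsimp only
    split_ifs
    · exact hf t
    · exact Or.inr (Or.inl rfl)
  have hM : cDU g N ≤ M := by
    rw [hg]
    exact hin c₀
  rcases hlaw with h | h
  · have h1 : cDU f N ≤ cDU g N := by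
      rw [cDU_eq_card, cDU_eq_card]
      refine Finset.card_le_card (fun q hq => ?_)
      rw [Finset.mem_filter] at hq ⊢
      obtain ⟨hqN, hq1, hq2⟩ := hq
      obtain ⟨p, hpq, hp, hp0⟩ := lastNZ_spec (f := f) (q := q) (by rw [hq2]; norm_num)
      rw [hq2] at hp
      have e1 : c p = c q := le_antisymm (hc hpq.le) (h p q hp hq1)
      have e2 := hc₀ p q hp hq1 e1
      refine ⟨hqN, by rw [hgt q (by omega)]; exact hq1, ?_⟩
      rw [lastNZ_eq hpq (by rw [hgt p e2, hp]; norm_num) (fun r h1 h2 => hg0 r (hp0 r h1 h2)),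
        hgt p e2, hp]
    exact ⟨1, (ph_of_cDU f hf N).mono le_rfl (by omega)⟩
  · have h1 : cUD f N ≤ cUD g N := by
      rw [cUD_eq_card, cUD_eq_card]
      refine Finset.card_le_card (fun q hq => ?_)
      rw [Finset.mem_filter] at hq ⊢
      obtain ⟨hqN, hq1, hq2⟩ := hq
      obtain ⟨p, hpq, hp, hp0⟩ := lastNZ_spec (f := f) (q := q) (by rw [hq2]; norm_num)
      rw [hq2] at hp
      have e1 : c q = c p := le_antisymm (h q p hq1 hp) (hc hpq.le)
      have e2 := hc₀ q p hq1 hp e1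
      refine ⟨hqN, by rw [hgt q (by omega)]; exact hq1, ?_⟩
      rw [lastNZ_eq hpq (by rw [hgt p (by omega), hp]; norm_num)
        (fun r h1 h2 => hg0 r (hp0 r h1 h2)), hgt p (by omega), hp]
    have h2 := cUD_le g hg' N
    exact ⟨0, (ph_of_cUD f hf N).mono le_rfl (by omega)⟩

end LevelRate
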