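import Pool.Agent.LevelLower.Numerics2

/-!
# Lower bounds for levels with the exponent `2 - C / s`: definitions

Time is the Z-order of the points of a square; `zx t`, `zy t` are the coordinates.
-/

namespace LevelRate

open LevelLower

/-- the abscissa of the point number `t` in Z-order -/
def zx : ℕ → ℕ
  | 0 => 0
  | n + 1 => (n + 1) % 2 + 2 * zx ((n + 1) / 4)
decreasing_by omega

/-- the ordinate of the point number `t` in Z-order -/
def zy : ℕ → ℕ
  | 0 => 0
  | n + 1 => (n + 1) / 2 % 2 + 2 * zy ((n + 1) / 4)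
decreasing_by omega

/-- the pairs `(c_j, e_j)` -/
def ce (m : ℕ) : ℕ → ℕ × ℕ
  | 0 => (1, 0)
  | j + 1 => (m * (ce m j).1 + 3 * (m - 1) * (2 * (ce m j).1 + 3 * (ce m j).2),
      m * ((ce m j).1 + (ce m j).2))

/-- the size of a label of level `j` -/
def kp (m : ℕ) : ℕ → ℕ
  | 0 => 1
  | j + 1 => 3 * (m - 1) * (2 * (ce m j).1 + 3 * (ce m j).2)

/-- `om m j` is the weight of a digit `x_j` in the active label of level `j + 1` -/
def om (m j : ℕ) : ℕ := 2 * (ce m j).1 + 3 * (ce m j).2

/-- the number of labels to the left of the column `X` -/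
def Rf (m : ℕ) (X : ℕ) : ℕ :=
  if h : 2 ≤ m ∧ 0 < X then m * Rf m (X / m) + 3 * m * (X / m) + 2 * (X % m) else 0
termination_by X
decreasing_by exact Nat.div_lt_self h.2 h.1

/-- the column of level `j` at time `t` (`m = 2 ^ l`) -/
def Xc (l j t : ℕ) : ℕ := zx t / (2 ^ l) ^ j

/-- the row of level `j` at time `t` -/
def Yc (l j t : ℕ) : ℕ := zy t / (2 ^ l) ^ j

/-- the active label of level `j` at time `t` -/
def lam (l j t : ℕ) : ℤ := Rf (2 ^ l) (Xc l j t) - Yc l j t

/-- the height of the tape `P_j` at time `t` -/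
def Phi (l : ℕ) : ℕ → ℕ → ℤ
  | 0, t => lam l 0 t
  | j + 1, t => kp (2 ^ l) (j + 1) * lam l (j + 1) t + om (2 ^ l) j *
      (2 * ((Yc l j t : ℤ) - 2 ^ l * Yc l (j + 1) t) + (2 ^ l - 1) -
        ((Xc l j t : ℤ) - 2 ^ l * Xc l (j + 1) t))

/-- the coefficients of the static tape -/
def dl (m : ℕ) : ℕ → ℕ
  | 0 => 3
  | n + 1 => 3 * kp m (n + 1) + 6 * m * (ce m n).1

/-- the static tape: elements that are down at time `t` -/
def eta (l K t : ℕ) : ℕ := ∑ n ∈ Finset.range K, dl (2 ^ l) n * Yc l n t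

/-- status difference of `a` and `b` in the set `S` -/
def sd {C : Type} [DecidableEq C] (S : Finset C) (a b : C) : ℤ :=
  (if a ∈ S then 1 else 0) - (if b ∈ S then 1 else 0)

/-- the last nonzero value of `f` before time `t` -/
def lastNZ (f : ℕ → ℤ) : ℕ → ℤ
  | 0 => 0
  | t + 1 => if f t = 0 then lastNZ f t else f t

/-- the number of changes from `1` to `-1` before time `t` -/
def cDU (f : ℕ → ℤ) : ℕ → ℕ
  | 0 => 0
  | t + 1 => cDU f t + if f t = -1 ∧ lastNZ f t = 1 then 1 else 0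

/-- the number of changes from `-1` to `1` before time `t` -/
def cUD (f : ℕ → ℤ) : ℕ → ℕ
  | 0 => 0
  | t + 1 => cUD f t + if f t = 1 ∧ lastNZ f t = -1 then 1 else 0

end LevelRate
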