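import Pool.Agent.LevelRate.SysSeq

/-! # From heights of tapes to a system of unit exchanges -/

namespace LevelRate

open LevelLower

theorem Ph_neg {f : ℕ → ℤ} {t₀ t₁ a b : ℕ} (h : Ph f t₀ t₁ a b) :
    Ph (fun t => - f t) t₀ t₁ (a + 1) (b + 1) := by
  obtain ⟨φ, h1, h2, h3⟩ := h
  refine ⟨fun t => φ t + 1, fun x y hxy => by simpa using h1 hxy,
    fun t => ⟨by simpa using (h2 t).1, by simpa using (h2 t).2⟩, fun t ht ht' => ?_⟩
  have := h3 t ht ht'
  simp only [pow_succ]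
  linarith

theorem Ph_of_nonneg {f : ℕ → ℤ} {t₀ t₁ s : ℕ} (h : ∀ t, t₀ ≤ t → t < t₁ → 0 ≤ f t) :
    ∃ p, Ph f t₀ t₁ p (p + s) :=
  ⟨0, fun _ => 0, monotone_const, fun t => ⟨le_rfl, Nat.zero_le _⟩,
    fun t h0 h1 => by simpa using h t h0 h1⟩

theorem Ph_of_nonpos {f : ℕ → ℤ} {t₀ t₁ s : ℕ} (h : ∀ t, t₀ ≤ t → t < t₁ → f t ≤ 0) :
    ∃ p, Ph f t₀ t₁ p (p + s) :=
  ⟨1, fun _ => 1, monotone_const, fun t => ⟨le_rfl, Nat.le_add_right _ _⟩,
    fun t h0 h1 => by simpa using h t h0 h1⟩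

/-- the elements: those of the tapes and the padding -/
abbrev HC {n : ℕ} (sz : Fin n → ℕ) (r : ℕ) : Type := (Σ τ : Fin n, Fin (sz τ)) ⊕ Fin r

/-- the elements below the heights -/
def HS {n : ℕ} (sz : Fin n → ℕ) (r : ℕ) (H : Fin n → ℕ → ℕ) (t : ℕ) : Finset (HC sz r) :=
  (Finset.univ.filter (fun c : Σ τ : Fin n, Fin (sz τ) => (c.2 : ℕ) < H c.1 t)).map
    Function.Embedding.inl

theorem mem_HS_inl {n : ℕ} (sz : Fin n → ℕ) (r : ℕ) (H : Fin n → ℕ → ℕ) (t : ℕ)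
    (c : Σ τ : Fin n, Fin (sz τ)) :
    (Sum.inl c : HC sz r) ∈ HS sz r H t ↔ (c.2 : ℕ) < H c.1 t := by
  simp [HS]

theorem not_mem_HS_inr {n : ℕ} (sz : Fin n → ℕ) (r : ℕ) (H : Fin n → ℕ → ℕ) (t : ℕ)
    (c : Fin r) : (Sum.inr c : HC sz r) ∉ HS sz r H t := by
  simp [HS]

theorem card_fin_lt (m h : ℕ) (hm : h ≤ m) :
    (Finset.univ.filter (fun i : Fin m => (i : ℕ) < h)).card = h := by
  rw [Fin.card_filter_val_lt, Nat.min_eq_right hm]

theorem card_HS {n : ℕ} (sz : Fin n → ℕ) (r : ℕ) (H : Fin n → ℕ → ℕ) (t : ℕ)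
    (hle : ∀ τ, H τ t ≤ sz τ) : (HS sz r H t).card = ∑ τ, H τ t := by
  classical
  have h1 : Finset.univ.filter (fun c : Σ τ : Fin n, Fin (sz τ) => (c.2 : ℕ) < H c.1 t) =
      Finset.univ.sigma (fun τ => Finset.univ.filter (fun i : Fin (sz τ) => (i : ℕ) < H τ t)) := by
    ext c
    simp
  rw [HS, Finset.card_map, h1, Finset.card_sigma]
  exact Finset.sum_congr rfl fun τ _ => card_fin_lt _ _ (hle τ)

theorem sys_of_heights {n N s k M : ℕ} (sz : Fin n → ℕ) (H : Fin n → ℕ → ℕ)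
    (hN : 0 < N) (hle : ∀ τ, ∀ t ≤ N, H τ t ≤ sz τ) (hsum : ∀ t ≤ N, ∑ τ, H τ t = k)
    (hne : ∀ t < N, ∃ τ, H τ t ≠ H τ (t + 1))
    (hs : ∀ τ τ', τ < τ' → ∀ θ θ' : ℕ,
      ∃ p, Ph (fun t => vl θ (H τ t) - vl θ' (H τ' t)) 0 (N + 1) p (p + s))
    (hM : ∑ τ, sz τ ≤ M) :
    ∃ T, N ≤ T ∧ HasSys2 (s + 1) M T := by
  classical
  have hcard : Fintype.card (HC sz (M - ∑ τ, sz τ)) = M := by
    rw [Fintype.card_sum, Fintype.card_sigma]
    simp only [Fintype.card_fin]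
    omega
  have key := sys_of_seq (C := HC sz (M - ∑ τ, sz τ)) (N := N) (s := s) (k := k)
    (HS sz (M - ∑ τ, sz τ) H) hN
    (fun t ht => by rw [card_HS _ _ _ _ (fun τ => hle τ t ht), hsum t ht])
    (fun t ht heq => by
      obtain ⟨τ, hτ⟩ := hne t ht
      have h1 : ∀ i : Fin (sz τ), ((i : ℕ) < H τ t ↔ (i : ℕ) < H τ (t + 1)) := fun i => by
        have := congrArg (fun S => (Sum.inl ⟨τ, i⟩ : HC sz (M - ∑ τ, sz τ)) ∈ S) heq
        simpa only [mem_HS_inl, eq_iff_iff] using this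
      have h2 := hle τ t ht.le
      have h3 := hle τ (t + 1) ht
      rcases lt_or_gt_of_ne hτ with h | h
      · have := (h1 ⟨H τ t, lt_of_lt_of_le h h3⟩).2 h
        exact absurd this (lt_irrefl _)
      · have := (h1 ⟨H τ (t + 1), lt_of_lt_of_le h h2⟩).1 h
        exact absurd this (lt_irrefl _))
    (fun a b hab => by
      have hvl : ∀ (c : Σ τ : Fin n, Fin (sz τ)) (t : ℕ),
          (if (Sum.inl c : HC sz (M - ∑ τ, sz τ)) ∈ HS sz (M - ∑ τ, sz τ) H t then (1 : ℤ) else 0)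
            = vl c.2 (H c.1 t) := fun c t => by
        simp only [mem_HS_inl, vl]
      have hvr : ∀ (c : Fin (M - ∑ τ, sz τ)) (t : ℕ),
          (if (Sum.inr c : HC sz (M - ∑ τ, sz τ)) ∈ HS sz (M - ∑ τ, sz τ) H t then (1 : ℤ) else 0)
            = 0 := fun c t => by
        rw [if_neg (not_mem_HS_inr _ _ _ _ _)]
      have hvn : ∀ i h : ℕ, 0 ≤ vl i h := fun i h => by
        unfold vl; split_ifs <;> norm_num
      rcases a with a | a <;> rcases b with b | b
      · obtain ⟨τ, θ⟩ := a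
        obtain ⟨τ', θ'⟩ := b
        have e : (fun t => sd (HS sz (M - ∑ τ, sz τ) H t) (Sum.inl ⟨τ, θ⟩) (Sum.inl ⟨τ', θ'⟩)) =
            fun t => vl θ (H τ t) - vl θ' (H τ' t) := by
          funext t
          simp only [sd, hvl]
        rw [e]
        rcases lt_trichotomy τ τ' with h | h | h
        · exact hs τ τ' h θ θ'
        · subst h
          rcases le_total (θ : ℕ) (θ' : ℕ) with h' | h'
          · refine Ph_of_nonneg fun t _ _ => ?_
            unfold vl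
            split_ifs <;> omega
          · refine Ph_of_nonpos fun t _ _ => ?_
            unfold vl
            split_ifs <;> omega
        · obtain ⟨p, hp⟩ := hs τ' τ h θ' θ
          refine ⟨p + 1, ?_⟩
          have h1 := Ph_neg hp
          have e2 : (fun t => -(vl θ' (H τ' t) - vl θ (H τ t))) =
              fun t => vl θ (H τ t) - vl θ' (H τ' t) := by
            funext t; ring
          rw [e2] at h1
          exact h1.mono le_rfl (by omega)
      · refine Ph_of_nonneg fun t _ _ => ?_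
        simp only [sd, hvl, hvr, sub_zero]
        exact hvn _ _
      · refine Ph_of_nonpos fun t _ _ => ?_
        simp only [sd, hvl, hvr, zero_sub, Left.neg_nonpos_iff]
        exact hvn _ _
      · refine Ph_of_nonneg fun t _ _ => ?_
        simp only [sd, hvr, sub_zero, le_refl])
  obtain ⟨T, hT, h⟩ := key
  rw [hcard] at h
  exact ⟨T, hT, h⟩

end LevelRate
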