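import Pool.Agent.LevelRate.ZOrd

/-!
# Labels
-/

namespace LevelRate

theorem Rf_eq {m : ℕ} (hm : 2 ≤ m) (X : ℕ) :
    Rf m X = m * Rf m (X / m) + 3 * m * (X / m) + 2 * (X % m) := by
  rcases Nat.eq_zero_or_pos X with h | h
  · subst h
    rw [Rf]
    simp [Rf]
  · rw [Rf]
    rw [dif_pos ⟨hm, h⟩]

theorem Rf_zero (m : ℕ) : Rf m 0 = 0 := by
  rw [Rf]
  simp

theorem Rf_mono {m : ℕ} (hm : 2 ≤ m) {X X' : ℕ} (h : X ≤ X') :
    Rf m X + 2 * (X' - X) ≤ Rf m X' := by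
  induction X' using Nat.strong_induction_on generalizing X with
  | _ X' ih =>
    rcases Nat.eq_zero_or_pos X' with h0 | h0
    · obtain rfl : X = 0 := by omega
      subst h0
      simp
    have hlt : X' / m < X' := Nat.div_lt_self h0 (by omega)
    have h1 := ih (X' / m) hlt (Nat.div_le_div_right h : X / m ≤ X' / m)
    rw [Rf_eq hm X, Rf_eq hm X']
    have e1 := Nat.div_add_mod X m
    have e2 := Nat.div_add_mod X' m
    have h2 : X / m ≤ X' / m := Nat.div_le_div_right h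
    obtain ⟨d, hd⟩ := Nat.exists_eq_add_of_le h2
    have h3 : m * Rf m (X / m) + m * (2 * d) ≤ m * Rf m (X' / m) := by
      rw [← Nat.mul_add]
      apply Nat.mul_le_mul_left
      rw [hd] at h1
      rw [hd]
      omega
    have h4 : X % m < m := Nat.mod_lt _ (by omega)
    have h5 : X' % m < m := Nat.mod_lt _ (by omega)
    have e3 : 3 * m * (X' / m) = 3 * m * (X / m) + 3 * (m * d) := by rw [hd]; ring
    have e4 : m * (X' / m) = m * (X / m) + m * d := by rw [hd]; ring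
    have e5 : m * (2 * d) = 2 * (m * d) := by ring
    rw [e5] at h3
    rw [e3]
    omega

theorem Rf_lt {m : ℕ} (hm : 2 ≤ m) {X X' : ℕ} (h : X < X') : Rf m X < Rf m X' := by
  have := Rf_mono hm h.le
  omega

theorem Rf_le_iff {m : ℕ} (hm : 2 ≤ m) {X X' : ℕ} : Rf m X ≤ Rf m X' ↔ X ≤ X' := by
  constructor
  · intro h
    by_contra h'
    have := Rf_lt hm (not_le.1 h')
    omega
  · intro h
    have := Rf_mono hm h
    omega

/-- the labels of two levels -/
theorem Rf_levels {m : ℕ} (hm : 2 ≤ m) (k X : ℕ) : ∃ ρ : ℤ,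
    (Rf m X : ℤ) = (m : ℤ) ^ k * Rf m (X / m ^ k) + 3 * k * (m : ℤ) ^ k * (X / m ^ k : ℕ) + ρ ∧
    0 ≤ ρ ∧ ρ ≤ (3 * k - 1) * ((m : ℤ) ^ k - 1) := by
  induction k generalizing X with
  | zero => exact ⟨0, by simp, le_rfl, by simp⟩
  | succ k ih =>
    obtain ⟨ρ, h1, h2, h3⟩ := ih (X / m)
    have hpos : (0 : ℤ) < (m : ℤ) ^ k := by positivity
    have hm' : (2 : ℤ) ≤ m := by exact_mod_cast hm
    have e1 : X / m ^ (k + 1) = X / m / m ^ k := by
      rw [pow_succ', Nat.div_div_eq_div_mul]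
    have e2 := Nat.div_add_mod (X / m) (m ^ k)
    have e2' : (m : ℤ) ^ k * (X / m / m ^ k : ℕ) + (X / m % m ^ k : ℕ) = (X / m : ℕ) := by
      exact_mod_cast e2
    have h4 : ((X / m % m ^ k : ℕ) : ℤ) ≤ (m : ℤ) ^ k - 1 := by
      have : X / m % m ^ k < m ^ k := Nat.mod_lt _ (by positivity)
      have h' : ((X / m % m ^ k : ℕ) : ℤ) < (m : ℤ) ^ k := by exact_mod_cast this
      omega
    have h4' : (0 : ℤ) ≤ ((X / m % m ^ k : ℕ) : ℤ) := by positivity
    have h5 : ((X % m : ℕ) : ℤ) ≤ (m : ℤ) - 1 := by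
      have : X % m < m := Nat.mod_lt _ (by omega)
      omega
    have h5' : (0 : ℤ) ≤ ((X % m : ℕ) : ℤ) := by positivity
    have h6 : (Rf m X : ℤ) = m * Rf m (X / m) + 3 * m * (X / m : ℕ) + 2 * (X % m : ℕ) := by
      exact_mod_cast Rf_eq hm X
    refine ⟨m * ρ + 3 * m * (X / m % m ^ k : ℕ) + 2 * (X % m : ℕ), ?_, by positivity, ?_⟩
    · rw [h6, h1, e1, ← e2']
      push_cast
      ring
    · have h7 : (m : ℤ) * ρ ≤ m * ((3 * k - 1) * ((m : ℤ) ^ k - 1)) :=
        mul_le_mul_of_nonneg_left h3 (by omega)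
      have h8 : 3 * (m : ℤ) * (X / m % m ^ k : ℕ) ≤ 3 * m * ((m : ℤ) ^ k - 1) :=
        mul_le_mul_of_nonneg_left h4 (by omega)
      have h9 : (0 : ℤ) ≤ (3 * k) * ((m : ℤ) - 1) := by
        apply mul_nonneg
        · positivity
        · omega
      rw [Nat.cast_succ k]
      have e3 : (3 * ((k : ℤ) + 1) - 1) * ((m : ℤ) ^ (k + 1) - 1) =
          m * ((3 * k - 1) * ((m : ℤ) ^ k - 1)) + 3 * m * ((m : ℤ) ^ k - 1) + 2 * (m - 1) +
            3 * k * (m - 1) := by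
        rw [pow_succ]
        ring
      rw [e3]
      linarith

end LevelRate
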