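import Pool.Agent.LevelRate.CellCount
import Pool.Agent.LevelRate.Cells
import Pool.Agent.LevelRate.Tapes

/-!
# Pairs of tapes
-/

namespace LevelRate

open LevelLower

theorem ce_pos {m : ℕ} (hm : 1 ≤ m) (j : ℕ) : 0 < (ce m j).1 := by
  induction j with
  | zero => simp [ce]
  | succ j ih =>
    simp only [ce]
    positivity

theorem om_pos {m : ℕ} (hm : 1 ≤ m) (j : ℕ) : 0 < om m j := by
  have := ce_pos hm j
  unfold om
  omega

theorem kp_succ (m j : ℕ) : kp m (j + 1) = 3 * (m - 1) * om m j := rfl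

theorem kp_pos {m : ℕ} (hm : 2 ≤ m) (j : ℕ) : 0 < kp m j := by
  cases j with
  | zero => simp [kp]
  | succ j =>
    rw [kp_succ]
    have := om_pos (show 1 ≤ m by omega) j
    have : 0 < m - 1 := by omega
    positivity

theorem two_le_pow {l : ℕ} (hl : 1 ≤ l) : 2 ≤ 2 ^ l := by
  calc 2 = 2 ^ 1 := by norm_num
    _ ≤ 2 ^ l := Nat.pow_le_pow_right (by norm_num) hl

/-- the part of the height inside the active label -/
def act (l j t : ℕ) : ℤ := 2 * ((Yc l j t : ℤ) - 2 ^ l * Yc l (j + 1) t) + (2 ^ l - 1) -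
        ((Xc l j t : ℤ) - 2 ^ l * Xc l (j + 1) t)

theorem Phi_succ (l j t : ℕ) : Phi l (j + 1) t =
    kp (2 ^ l) (j + 1) * lam l (j + 1) t + om (2 ^ l) j * act l j t := rfl

theorem Phi_zero (l t : ℕ) : Phi l 0 t = lam l 0 t := rfl

theorem Xc_succ (l j t : ℕ) : Xc l (j + 1) t = Xc l j t / 2 ^ l := by
  rw [Xc, Xc, pow_succ, Nat.div_div_eq_div_mul]

theorem Yc_succ (l j t : ℕ) : Yc l (j + 1) t = Yc l j t / 2 ^ l := by
  rw [Yc, Yc, pow_succ, Nat.div_div_eq_div_mul]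

theorem Xc_add (l i k t : ℕ) : Xc l (i + k) t = Xc l i t / (2 ^ l) ^ k := by
  rw [Xc, Xc, pow_add, Nat.div_div_eq_div_mul]

theorem Yc_add (l i k t : ℕ) : Yc l (i + k) t = Yc l i t / (2 ^ l) ^ k := by
  rw [Yc, Yc, pow_add, Nat.div_div_eq_div_mul]

theorem digit_X (l j t : ℕ) : 0 ≤ (Xc l j t : ℤ) - 2 ^ l * Xc l (j + 1) t ∧
    (Xc l j t : ℤ) - 2 ^ l * Xc l (j + 1) t ≤ 2 ^ l - 1 := by
  rw [Xc_succ]
  have h1 := Nat.div_add_mod (Xc l j t) (2 ^ l)
  have h2 : Xc l j t % 2 ^ l < 2 ^ l := Nat.mod_lt _ (by positivity)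
  have h3 : ((2 : ℤ) ^ l) * ((Xc l j t / 2 ^ l : ℕ) : ℤ) + ((Xc l j t % 2 ^ l : ℕ) : ℤ) =
      Xc l j t := by exact_mod_cast h1
  have h4 : ((Xc l j t % 2 ^ l : ℕ) : ℤ) < 2 ^ l := by exact_mod_cast h2
  constructor <;> omega

theorem digit_Y (l j t : ℕ) : 0 ≤ (Yc l j t : ℤ) - 2 ^ l * Yc l (j + 1) t ∧
    (Yc l j t : ℤ) - 2 ^ l * Yc l (j + 1) t ≤ 2 ^ l - 1 := by
  rw [Yc_succ]
  have h1 := Nat.div_add_mod (Yc l j t) (2 ^ l)
  have h2 : Yc l j t % 2 ^ l < 2 ^ l := Nat.mod_lt _ (by positivity)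
  have h3 : ((2 : ℤ) ^ l) * ((Yc l j t / 2 ^ l : ℕ) : ℤ) + ((Yc l j t % 2 ^ l : ℕ) : ℤ) =
      Yc l j t := by exact_mod_cast h1
  have h4 : ((Yc l j t % 2 ^ l : ℕ) : ℤ) < 2 ^ l := by exact_mod_cast h2
  constructor <;> omega

theorem act_bounds (l j t : ℕ) : 0 ≤ act l j t ∧ act l j t ≤ 3 * (2 ^ l - 1) := by
  have h1 := digit_X l j t
  have h2 := digit_Y l j t
  unfold act
  constructor <;> omega

theorem Phi_bounds {l : ℕ} (j t : ℕ) :
    (kp (2 ^ l) j : ℤ) * lam l j t ≤ Phi l j t ∧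
    Phi l j t ≤ (kp (2 ^ l) j : ℤ) * (lam l j t + 1) := by
  cases j with
  | zero =>
    rw [Phi_zero]
    simp [kp]
  | succ j =>
    rw [Phi_succ]
    have h1 := act_bounds l j t
    have h2 : (0 : ℤ) ≤ om (2 ^ l) j := by positivity
    have h3 : (0 : ℤ) ≤ om (2 ^ l) j * act l j t := mul_nonneg h2 h1.1
    have h4 : (om (2 ^ l) j : ℤ) * act l j t ≤ om (2 ^ l) j * (3 * (2 ^ l - 1)) :=
      mul_le_mul_of_nonneg_left h1.2 h2
    have h5 : (kp (2 ^ l) (j + 1) : ℤ) = om (2 ^ l) j * (3 * (2 ^ l - 1)) := by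
      rw [kp_succ]
      have : 1 ≤ 2 ^ l := Nat.one_le_two_pow
      push_cast [Nat.cast_sub this]
      ring
    have e : (kp (2 ^ l) (j + 1) : ℤ) * (lam l (j + 1) t + 1) =
      kp (2 ^ l) (j + 1) * lam l (j + 1) t + kp (2 ^ l) (j + 1) := by ring
    constructor
    · omega
    · rw [e]
      omega

/-- down at `p` and up at `q` -/
theorem lam_le_of_Phi {l : ℕ} (hl : 1 ≤ l) {j p q : ℕ} {A : ℤ} (hp : Phi l j p ≤ A)
    (hq : A < Phi l j q) : lam l j p ≤ lam l j q := by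
  have h1 := (Phi_bounds (l := l) j p).1
  have h2 := (Phi_bounds (l := l) j q).2
  have hk : (0 : ℤ) < kp (2 ^ l) j := by exact_mod_cast kp_pos (two_le_pow hl) j
  have h3 : (kp (2 ^ l) j : ℤ) * lam l j p < kp (2 ^ l) j * (lam l j q + 1) := by linarith
  have h4 := lt_of_mul_lt_mul_left h3 hk.le
  omega

theorem Phi_le_of_lam {l : ℕ} {j p q : ℕ} (h : lam l j p < lam l j q) :
    Phi l j p ≤ Phi l j q := by
  have h1 := (Phi_bounds (l := l) j q).1
  have h2 := (Phi_bounds (l := l) j p).2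
  have hk : (0 : ℤ) ≤ kp (2 ^ l) j := by positivity
  have h3 : (kp (2 ^ l) j : ℤ) * (lam l j p + 1) ≤ kp (2 ^ l) j * lam l j q :=
    mul_le_mul_of_nonneg_left (by omega) hk
  linarith

/-- labels of two levels -/
theorem lam_levels {l : ℕ} (hl : 1 ≤ l) (i k t : ℕ) : ∃ δ : ℤ,
    lam l i t = (2 ^ l) ^ k * lam l (i + k) t + 3 * k * (2 ^ l) ^ k * Xc l (i + k) t + δ ∧
    -((2 ^ l) ^ k - 1) ≤ δ ∧ δ ≤ (3 * k - 1) * ((2 ^ l) ^ k - 1) := by
  obtain ⟨ρ, h1, h2, h3⟩ := Rf_levels (two_le_pow hl) k (Xc l i t)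
  have e1 := Nat.div_add_mod (Yc l i t) ((2 ^ l) ^ k)
  have e2 : Yc l i t % (2 ^ l) ^ k < (2 ^ l) ^ k := Nat.mod_lt _ (by positivity)
  rw [← Yc_add] at e1
  rw [← Xc_add] at h1
  have e1' : ((2 : ℤ) ^ l) ^ k * Yc l (i + k) t + (Yc l i t % (2 ^ l) ^ k : ℕ) = Yc l i t := by
    exact_mod_cast e1
  have e2' : ((Yc l i t % (2 ^ l) ^ k : ℕ) : ℤ) < (2 ^ l) ^ k := by exact_mod_cast e2
  have e3 : (0 : ℤ) ≤ ((Yc l i t % (2 ^ l) ^ k : ℕ) : ℤ) := by positivity
  rw [Nat.cast_pow, Nat.cast_ofNat] at h1 h3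
  refine ⟨ρ - (Yc l i t % (2 ^ l) ^ k : ℕ), ?_, by omega, by omega⟩
  unfold lam
  rw [h1]
  linear_combination e1'

/-- the columns and rows of an up/down pair of tapes -/
theorem law_PP {l : ℕ} (hl : 1 ≤ l) {i k p q : ℕ} (hk : 1 ≤ k)
    (h1 : lam l (i + k) p ≤ lam l (i + k) q) (h2 : lam l i q ≤ lam l i p) :
    Xc l (i + k) q ≤ Xc l (i + k) p ∧ Yc l (i + k) q ≤ Yc l (i + k) p := by
  obtain ⟨δ, a1, a2, a3⟩ := lam_levels hl i k p
  obtain ⟨δ', b1, b2, b3⟩ := lam_levels hl i k q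
  have hpos : (0 : ℤ) < (2 ^ l) ^ k := by positivity
  have hX : Xc l (i + k) q ≤ Xc l (i + k) p := by
    by_contra hcon
    have h3 : (1 : ℤ) ≤ (Xc l (i + k) q : ℤ) - Xc l (i + k) p := by omega
    have h4 : (3 * k * (2 ^ l) ^ k : ℤ) * 1 ≤
        3 * k * (2 ^ l) ^ k * ((Xc l (i + k) q : ℤ) - Xc l (i + k) p) :=
      mul_le_mul_of_nonneg_left h3 (by positivity)
    have h5 : ((2 ^ l) ^ k : ℤ) * lam l (i + k) p ≤ (2 ^ l) ^ k * lam l (i + k) q :=
      mul_le_mul_of_nonneg_left h1 hpos.le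
    have hk' : (1 : ℤ) ≤ k := by exact_mod_cast hk
    nlinarith
  refine ⟨hX, ?_⟩
  have h6 := (Rf_le_iff (two_le_pow hl)).2 hX
  unfold lam at h1
  omega

theorem z_of_cols {l : ℕ} {j p q : ℕ} (hx : Xc l j q ≤ Xc l j p) (hy : Yc l j q ≤ Yc l j p) :
    q / 4 ^ (l * j) ≤ p / 4 ^ (l * j) := by
  rw [Xc_eq, Xc_eq] at hx
  rw [Yc_eq, Yc_eq] at hy
  exact z_mono hx hy

theorem cols_of_z {l : ℕ} {j p q : ℕ} (h : q / 4 ^ (l * j) = p / 4 ^ (l * j)) :
    Xc l j q = Xc l j p ∧ Yc l j q = Yc l j p := by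
  rw [Xc_eq, Xc_eq, Yc_eq, Yc_eq, h]
  exact ⟨rfl, rfl⟩

theorem cell_mono (l j : ℕ) : Monotone (fun t => t / 4 ^ (l * j)) :=
  fun _ _ h => Nat.div_le_div_right h

/-- the active part inside a cell -/
theorem act_lt {l : ℕ} {J p q : ℕ} {A : ℤ}
    (hc : q / 4 ^ (l * (J + 1)) = p / 4 ^ (l * (J + 1)))
    (hp : Phi l (J + 1) p ≤ A) (hq : A < Phi l (J + 1) q) :
    2 * (Yc l J p : ℤ) - Xc l J p < 2 * (Yc l J q : ℤ) - Xc l J q := by
  obtain ⟨h1, h2⟩ := cols_of_z hc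
  rw [Phi_succ] at hp hq
  have h3 : lam l (J + 1) q = lam l (J + 1) p := by unfold lam; rw [h1, h2]
  rw [h3] at hq
  have hom : (0 : ℤ) < om (2 ^ l) J := by
    exact_mod_cast om_pos (show 1 ≤ 2 ^ l from Nat.one_le_two_pow) J
  have h4 : (om (2 ^ l) J : ℤ) * act l J p < om (2 ^ l) J * act l J q := by omega
  have h5 := lt_of_mul_lt_mul_left h4 hom.le
  unfold act at h5
  rw [h1, h2] at h5
  omega

theorem act_up {l : ℕ} {J q t : ℕ} {A : ℤ}
    (hc : t / 4 ^ (l * (J + 1)) = q / 4 ^ (l * (J + 1)))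
    (hq : A < Phi l (J + 1) q) (hX : Xc l J t ≤ Xc l J q) (hY : Yc l J q ≤ Yc l J t) :
    A < Phi l (J + 1) t := by
  obtain ⟨h1, h2⟩ := cols_of_z hc
  rw [Phi_succ] at hq ⊢
  have h3 : lam l (J + 1) t = lam l (J + 1) q := by unfold lam; rw [h1, h2]
  have h4 : act l J q ≤ act l J t := by
    unfold act
    rw [h1, h2]
    omega
  have h5 : (om (2 ^ l) J : ℤ) * act l J q ≤ om (2 ^ l) J * act l J t :=
    mul_le_mul_of_nonneg_left h4 (by positivity)
  rw [h3]
  omega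

/-- the sign of a pair -/
theorem sgn_cases (a b : Prop) [Decidable a] [Decidable b] :
    ((if a then (1 : ℤ) else 0) - (if b then 1 else 0) = -1 ∨
      (if a then (1 : ℤ) else 0) - (if b then 1 else 0) = 0 ∨
      (if a then (1 : ℤ) else 0) - (if b then 1 else 0) = 1) := by
  split_ifs <;> norm_num

theorem sgn_one {a b : Prop} [Decidable a] [Decidable b]
    (h : (if a then (1 : ℤ) else 0) - (if b then 1 else 0) = 1) : a ∧ ¬ b := by
  split_ifs at h <;> simp_all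

theorem sgn_neg_one {a b : Prop} [Decidable a] [Decidable b]
    (h : (if a then (1 : ℤ) else 0) - (if b then 1 else 0) = -1) : ¬ a ∧ b := by
  split_ifs at h <;> simp_all

theorem sgn_neg_one' {a b : Prop} [Decidable a] [Decidable b] (h : ¬ a ∧ b) :
    (if a then (1 : ℤ) else 0) - (if b then 1 else 0) = -1 := by
  rw [if_neg h.1, if_pos h.2]
  norm_num

/-- a tape `P_i` against a tape `P_j`, `i < j` -/
theorem pair_PP {l i j : ℕ} (hl : 1 ≤ l) (hij : i < j) (A B : ℤ) (N : ℕ) :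
    ∃ p, Ph (fun t => (if B < Phi l i t then 1 else 0) - (if A < Phi l j t then 1 else 0))
      0 N p (p + (6 * l + 3)) := by
  obtain ⟨k, rfl⟩ : ∃ k, j = i + k + 1 := ⟨j - i - 1, by omega⟩
  have key := ph_of_cells (M := 3 * l) (N := N) (fun t => t / 4 ^ (l * (i + k + 1)))
    (cell_mono l (i + k + 1))
    (fun t => (if B < Phi l i t then 1 else 0) - (if A < Phi l (i + k + 1) t then 1 else 0))
    (fun t => sgn_cases _ _) (Or.inl ?_) ?_
  · rw [show 2 * (3 * l) + 3 = 6 * l + 3 by ring] at key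
    exact key
  · intro p q hp hq
    obtain ⟨hp1, hp2⟩ := sgn_one hp
    obtain ⟨hq1, hq2⟩ := sgn_neg_one hq
    have h1 := lam_le_of_Phi hl (not_lt.1 hp2) hq2
    have h2 := lam_le_of_Phi hl (not_lt.1 hq1) hp1
    obtain ⟨h3, h4⟩ := law_PP (k := k + 1) hl (by omega) h1 h2
    exact z_of_cols h3 h4
  · intro c
    obtain ⟨g, hg⟩ : ∃ g : ℕ → ℤ, g = fun t => if t / 4 ^ (l * (i + k + 1)) = c then
      ((if B < Phi l i t then (1 : ℤ) else 0) - (if A < Phi l (i + k + 1) t then 1 else 0))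
      else 0 := ⟨_, rfl⟩
    have hg1 : ∀ t, g t = 1 → t / 4 ^ (l * (i + k + 1)) = c ∧ B < Phi l i t ∧
        Phi l (i + k + 1) t ≤ A := by
      intro t ht
      rw [hg] at ht
      dsimp only at ht
      split_ifs at ht with h1 h2 h3 h3 <;> norm_num at ht
      exact ⟨h1, h2, not_lt.1 h3⟩
    have hg2 : ∀ t, g t = -1 → t / 4 ^ (l * (i + k + 1)) = c ∧ Phi l i t ≤ B ∧
        A < Phi l (i + k + 1) t := by
      intro t ht
      rw [hg] at ht
      dsimp only at ht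
      split_ifs at ht with h1 h2 h3 h3 <;> norm_num at ht
      exact ⟨h1, not_lt.1 h2, h3⟩
    change cDU (fun t => if t / 4 ^ (l * (i + k + 1)) = c then
      ((if B < Phi l i t then (1 : ℤ) else 0) - (if A < Phi l (i + k + 1) t then 1 else 0))
      else 0) N ≤ 3 * l
    rw [← hg]
    refine cell_count (J := i + k) (c := c) (α := 3 * k + 2) (w := 3 * k) (Or.inr (by omega))
      (by omega) g ?_ ?_ ?_ ?_
    · intro t ht
      by_contra hcon
      apply ht
      rw [hg]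
      exact if_neg hcon
    · intro p q hp hq
      have h1 := hg1 p hp
      have h2 := hg2 q hq
      exact act_lt (by rw [h2.1, h1.1]) h1.2.2 h2.2.2
    · intro p q hp hq
      have h1 := hg1 p hp
      have h2 := hg2 q hq
      have h3 := lam_le_of_Phi hl h2.2.1 h1.2.1
      obtain ⟨δ, a1, a2, a3⟩ := lam_levels hl i k p
      obtain ⟨δ', b1, b2, b3⟩ := lam_levels hl i k q
      have hc : q / 4 ^ (l * (i + k + 1)) = p / 4 ^ (l * (i + k + 1)) := by rw [h2.1, h1.1]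
      obtain ⟨e1, e2⟩ := cols_of_z hc
      have hpos : (0 : ℤ) < (2 ^ l) ^ k := by positivity
      have r1 : (Rf (2 ^ l) (Xc l (i + k) p) : ℤ) = 2 ^ l * Rf (2 ^ l) (Xc l (i + k + 1) p) +
          3 * 2 ^ l * Xc l (i + k + 1) p +
          2 * ((Xc l (i + k) p : ℤ) - 2 ^ l * Xc l (i + k + 1) p) := by
        have h4 := Rf_eq (two_le_pow hl) (Xc l (i + k) p)
        have h5 := Nat.div_add_mod (Xc l (i + k) p) (2 ^ l)
        rw [← Xc_succ] at h4 h5
        zify at h4 h5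
        rw [h4]
        linear_combination (2 : ℤ) * h5
      have r2 : (Rf (2 ^ l) (Xc l (i + k) q) : ℤ) = 2 ^ l * Rf (2 ^ l) (Xc l (i + k + 1) q) +
          3 * 2 ^ l * Xc l (i + k + 1) q +
          2 * ((Xc l (i + k) q : ℤ) - 2 ^ l * Xc l (i + k + 1) q) := by
        have h4 := Rf_eq (two_le_pow hl) (Xc l (i + k) q)
        have h5 := Nat.div_add_mod (Xc l (i + k) q) (2 ^ l)
        rw [← Xc_succ] at h4 h5
        zify at h4 h5
        rw [h4]
        linear_combination (2 : ℤ) * h5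
      rw [e1] at r2
      have r3 : lam l (i + k) q - lam l (i + k) p =
          2 * ((Xc l (i + k) q : ℤ) - Xc l (i + k) p) - ((Yc l (i + k) q : ℤ) - Yc l (i + k) p) := by
        unfold lam
        rw [r1, r2]
        ring
      by_contra hcon
      have h6 : (3 * (k : ℤ) + 1) ≤ (3 * k + 2) * ((Xc l (i + k) q : ℤ) - Xc l (i + k) p) -
          ((Yc l (i + k) q : ℤ) - Yc l (i + k) p) := by omega
      have h7 : ((2 ^ l) ^ k : ℤ) * (3 * k + 1) ≤ (2 ^ l) ^ k *
          ((3 * k + 2) * ((Xc l (i + k) q : ℤ) - Xc l (i + k) p) -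
          ((Yc l (i + k) q : ℤ) - Yc l (i + k) p)) := mul_le_mul_of_nonneg_left h6 hpos.le
      have h8 : lam l i q - lam l i p = (2 ^ l) ^ k *
          ((3 * k + 2) * ((Xc l (i + k) q : ℤ) - Xc l (i + k) p) -
          ((Yc l (i + k) q : ℤ) - Yc l (i + k) p)) + (δ' - δ) := by
        rw [a1, b1]
        linear_combination ((2 : ℤ) ^ l) ^ k * r3
      have h9 : ((2 ^ l) ^ k : ℤ) * (3 * k + 1) = 3 * k * (2 ^ l) ^ k + (2 ^ l) ^ k := by ring
      have h10 : (3 * (k : ℤ) - 1) * ((2 ^ l) ^ k - 1) =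
        3 * k * (2 ^ l) ^ k - (2 ^ l) ^ k - 3 * k + 1 := by ring
      rw [h10] at a3 b3
      have h11 : (0 : ℤ) ≤ k := by positivity
      omega
    · intro q t hq ht hXt hYt
      have h2 := hg2 q hq
      have hXi : Xc l i t < Xc l i q := by
        by_contra hcon
        rw [Xc_add, Xc_add] at hXt
        have := Nat.div_le_div_right (c := (2 ^ l) ^ k) (not_lt.1 hcon)
        omega
      have hYi : ∀ n, Yc l n q ≤ Yc l n t := fun n => Nat.div_le_div_right hYt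
      have hlam : lam l i t < lam l i q := by
        have h3 := Rf_lt (two_le_pow hl) hXi
        have h4 := hYi i
        unfold lam
        omega
      have h3 := Phi_le_of_lam hlam
      have h4 := act_up (by rw [ht, h2.1]) h2.2.2 hXt.le (hYi _)
      rw [hg]
      dsimp only
      rw [if_pos ht]
      exact sgn_neg_one' ⟨by omega, h4⟩

theorem eta_mono {l K : ℕ} {p q : ℕ} (h : zy p ≤ zy q) : eta l K p ≤ eta l K q := by
  unfold eta
  exact Finset.sum_le_sum (fun n _ => Nat.mul_le_mul_left _ (Nat.div_le_div_right h))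

/-- the static tape against a tape `P_j` -/
theorem pair_YP {l K j : ℕ} (hl : 1 ≤ l) (A e : ℤ) (N : ℕ) :
    ∃ p, Ph (fun t => (if (eta l K t : ℤ) ≤ e then 1 else 0) - (if A < Phi l j t then 1 else 0))
      0 N p (p + (6 * l + 3)) := by
  have hzy : ∀ p q, (eta l K p : ℤ) ≤ e → ¬ (eta l K q : ℤ) ≤ e → zy p ≤ zy q := by
    intro p q hp hq
    by_contra hcon
    have := eta_mono (l := l) (K := K) (not_le.1 hcon).le
    omega
  have key := ph_of_cells (M := 3 * l) (N := N) (fun t => t / 4 ^ (l * j)) (cell_mono l j)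
    (fun t => (if (eta l K t : ℤ) ≤ e then 1 else 0) - (if A < Phi l j t then 1 else 0))
    (fun t => sgn_cases _ _) (Or.inr ?_) ?_
  · rw [show 2 * (3 * l) + 3 = 6 * l + 3 by ring] at key
    exact key
  · intro p q hp hq
    obtain ⟨hp1, hp2⟩ := sgn_one hp
    obtain ⟨hq1, hq2⟩ := sgn_neg_one hq
    have h1 := lam_le_of_Phi hl (not_lt.1 hp2) hq2
    have h2 := hzy p q hp1 hq1
    have h3 : Yc l j p ≤ Yc l j q := Nat.div_le_div_right h2
    refine z_of_cols ?_ h3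
    rw [← Rf_le_iff (two_le_pow hl)]
    unfold lam at h1
    omega
  · intro c
    obtain ⟨g, hg⟩ : ∃ g : ℕ → ℤ, g = fun t => if t / 4 ^ (l * j) = c then
      ((if (eta l K t : ℤ) ≤ e then (1 : ℤ) else 0) - (if A < Phi l j t then 1 else 0))
      else 0 := ⟨_, rfl⟩
    rw [← hg]
    have hg1 : ∀ t, g t = 1 → t / 4 ^ (l * j) = c ∧ (eta l K t : ℤ) ≤ e ∧ Phi l j t ≤ A := by
      intro t ht
      rw [hg] at ht
      dsimp only at ht
      split_ifs at ht with h1 h2 h3 h3 <;> norm_num at ht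
      exact ⟨h1, h2, not_lt.1 h3⟩
    have hg2 : ∀ t, g t = -1 → t / 4 ^ (l * j) = c ∧ ¬ (eta l K t : ℤ) ≤ e ∧
        A < Phi l j t := by
      intro t ht
      rw [hg] at ht
      dsimp only at ht
      split_ifs at ht with h1 h2 h3 h3 <;> norm_num at ht
      exact ⟨h1, h2, h3⟩
    cases j with
    | zero =>
      have h0 : cDU g N = 0 := by
        rw [cDU_eq_card, Finset.card_eq_zero, Finset.filter_eq_empty_iff]
        rintro q - ⟨hq1, hq2⟩
        obtain ⟨p, hpq, hp, -⟩ := lastNZ_spec (f := g) (q := q) (by rw [hq2]; norm_num)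
        rw [hq2] at hp
        have h1 := (hg1 p hp).1
        have h2 := (hg2 q hq1).1
        simp only [mul_zero, pow_zero, Nat.div_one] at h1 h2
        omega
      omega
    | succ J =>
      refine cell_count (J := J) (c := c) (α := 0) (w := 0) (Or.inl rfl) le_rfl g ?_ ?_ ?_ ?_
      · intro t ht
        by_contra hcon
        apply ht
        rw [hg]
        exact if_neg hcon
      · intro p q hp hq
        have h1 := hg1 p hp
        have h2 := hg2 q hq
        exact act_lt (by rw [h2.1, h1.1]) h1.2.2 h2.2.2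
      · intro p q hp hq
        have h1 := hg1 p hp
        have h2 := hg2 q hq
        have h3 : Yc l J p ≤ Yc l J q := Nat.div_le_div_right (hzy p q h1.2.1 h2.2.1)
        simp only [zero_mul]
        omega
      · intro q t hq ht hXt hYt
        have h2 := hg2 q hq
        have hYi : ∀ n, Yc l n q ≤ Yc l n t := fun n => Nat.div_le_div_right hYt
        have h3 := eta_mono (l := l) (K := K) hYt
        have h4 := act_up (by rw [ht, h2.1]) h2.2.2 hXt.le (hYi _)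
        rw [hg]
        dsimp only
        rw [if_pos ht]
        exact sgn_neg_one' ⟨by omega, h4⟩

end LevelRate
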