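import Pool.Agent.LevelRate.Defs

/-!
# Counting sign changes
-/

namespace LevelRate

open LevelLower

theorem lastNZ_spec {f : ℕ → ℤ} {q : ℕ} (h : lastNZ f q ≠ 0) :
    ∃ p < q, f p = lastNZ f q ∧ ∀ r, p < r → r < q → f r = 0 := by
  induction q with
  | zero => exact absurd rfl h
  | succ q ih =>
    unfold lastNZ at h ⊢
    by_cases h0 : f q = 0
    · rw [if_pos h0] at h ⊢
      obtain ⟨p, h1, h2, h3⟩ := ih h
      refine ⟨p, by omega, h2, fun r hr hr' => ?_⟩
      rcases Nat.lt_succ_iff_lt_or_eq.1 hr' with h4 | h4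
      · exact h3 r hr h4
      · rw [h4]
        exact h0
    · rw [if_neg h0]
      exact ⟨q, by omega, rfl, fun r hr hr' => by omega⟩

theorem lastNZ_eq {f : ℕ → ℤ} {p q : ℕ} (hpq : p < q) (hp : f p ≠ 0)
    (h : ∀ r, p < r → r < q → f r = 0) : lastNZ f q = f p := by
  induction q with
  | zero => omega
  | succ q ih =>
    unfold lastNZ
    rcases Nat.lt_succ_iff_lt_or_eq.1 hpq with h1 | h1
    · rw [if_pos (h q h1 (by omega))]
      exact ih h1 (fun r hr hr' => h r hr (by omega))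
    · rw [← h1, if_neg hp]

theorem cDU_eq_card (f : ℕ → ℤ) (N : ℕ) : cDU f N =
    ((Finset.range N).filter (fun q => f q = -1 ∧ lastNZ f q = 1)).card := by
  induction N with
  | zero => simp [cDU]
  | succ N ih =>
    rw [Finset.range_add_one, Finset.filter_insert, cDU, ih]
    split_ifs
    · rw [Finset.card_insert_of_notMem (by simp)]
    · rfl

theorem cUD_eq_card (f : ℕ → ℤ) (N : ℕ) : cUD f N =
    ((Finset.range N).filter (fun q => f q = 1 ∧ lastNZ f q = -1)).card := by
  induction N with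
  | zero => simp [cUD]
  | succ N ih =>
    rw [Finset.range_add_one, Finset.filter_insert, cUD, ih]
    split_ifs
    · rw [Finset.card_insert_of_notMem (by simp)]
    · rfl

theorem lastNZ_cases (f : ℕ → ℤ) (hf : ∀ t, f t = -1 ∨ f t = 0 ∨ f t = 1) (N : ℕ) :
    lastNZ f N = -1 ∨ lastNZ f N = 0 ∨ lastNZ f N = 1 := by
  induction N with
  | zero => exact Or.inr (Or.inl rfl)
  | succ N ih =>
    unfold lastNZ
    split_ifs
    · exact ih
    · exact hf N

theorem scan_inv (f : ℕ → ℤ) (hf : ∀ t, f t = -1 ∨ f t = 0 ∨ f t = 1) (N : ℕ) :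
    (lastNZ f N = 0 → cDU f N = 0 ∧ cUD f N = 0) ∧
    (lastNZ f N = 1 → cDU f N ≤ cUD f N ∧ cUD f N ≤ cDU f N + 1) ∧
    (lastNZ f N = -1 → cUD f N ≤ cDU f N ∧ cDU f N ≤ cUD f N + 1) := by
  induction N with
  | zero => simp [lastNZ, cDU, cUD]
  | succ N ih =>
    obtain ⟨h1, h2, h3⟩ := ih
    have hc := lastNZ_cases f hf N
    unfold lastNZ cDU cUD
    rcases hf N with h | h | h <;> rcases hc with hc | hc | hc <;>
      simp only [h, hc] at h1 h2 h3 ⊢ <;> norm_num at h1 h2 h3 ⊢ <;> omega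

theorem cUD_le (f : ℕ → ℤ) (hf : ∀ t, f t = -1 ∨ f t = 0 ∨ f t = 1) (N : ℕ) :
    cUD f N ≤ cDU f N + 1 := by
  obtain ⟨h1, h2, h3⟩ := scan_inv f hf N
  rcases lastNZ_cases f hf N with h | h | h
  · have := h3 h
    omega
  · have := h1 h
    omega
  · have := h2 h
    omega

theorem cDU_mono (f : ℕ → ℤ) : Monotone (cDU f) :=
  monotone_nat_of_le_succ (fun t => by rw [cDU]; omega)

theorem cUD_mono (f : ℕ → ℤ) : Monotone (cUD f) :=
  monotone_nat_of_le_succ (fun t => by rw [cUD]; omega)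

theorem ph_of_cDU (f : ℕ → ℤ) (hf : ∀ t, f t = -1 ∨ f t = 0 ∨ f t = 1) (N : ℕ) :
    Ph f 0 N 1 (1 + (2 * cDU f N + 1)) := by
  -- the phase after reading `f t`
  obtain ⟨ψ, hψ⟩ : ∃ ψ : ℕ → ℕ, ∀ t, ψ t = 1 + 2 * cDU f (t + 1) +
      if lastNZ f (t + 1) = 1 then 1 else 0 := ⟨_, fun _ => rfl⟩
  have hmono : Monotone ψ := by
    refine monotone_nat_of_le_succ (fun t => ?_)
    have e : cDU f (t + 1 + 1) = cDU f (t + 1) +
      if f (t + 1) = -1 ∧ lastNZ f (t + 1) = 1 then 1 else 0 := rfl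
    have e' : lastNZ f (t + 1 + 1) = if f (t + 1) = 0 then lastNZ f (t + 1) else f (t + 1) := rfl
    rw [hψ, hψ, e, e']
    rcases hf (t + 1) with h | h | h
    · rw [h]
      norm_num
      split_ifs <;> omega
    · rw [h]
      norm_num
    · rw [h]
      norm_num
      split_ifs <;> omega
  have hle : ∀ t, t < N → ψ t ≤ 1 + (2 * cDU f N + 1) := by
    intro t ht
    rw [hψ]
    have h3 := cDU_mono f (show t + 1 ≤ N by omega)
    split_ifs <;> omega
  have hge : ∀ t, 1 ≤ ψ t := fun t => by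
    rw [hψ]
    omega
  refine ⟨fun t => if t < N then ψ t else 1 + (2 * cDU f N + 1), ?_, ?_, ?_⟩
  · intro t t' htt
    dsimp only
    by_cases h1 : t' < N
    · rw [if_pos h1, if_pos (by omega)]
      exact hmono htt
    · rw [if_neg h1]
      split_ifs with h2
      · exact hle t h2
      · exact le_rfl
  · intro t
    dsimp only
    have h1 := hge t
    split_ifs with h2
    · exact ⟨h1, hle t h2⟩
    · exact ⟨by omega, le_rfl⟩
  · intro t _ ht
    dsimp only
    rw [if_pos ht, hψ]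
    have e' : lastNZ f (t + 1) = if f t = 0 then lastNZ f t else f t := rfl
    rcases hf t with h | h | h
    · rw [e', h]
      norm_num
      rw [pow_add, pow_mul]
      norm_num
    · rw [h]
      simp
    · rw [e', h]
      norm_num
      rw [show 1 + 2 * cDU f (t + 1) + 1 = 2 * (cDU f (t + 1) + 1) by ring, pow_mul]
      norm_num

theorem lastNZ_neg (f : ℕ → ℤ) (t : ℕ) : lastNZ (fun t => - f t) t = - lastNZ f t := by
  induction t with
  | zero => simp [lastNZ]
  | succ t ih =>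
    unfold lastNZ
    rw [ih]
    simp only [neg_eq_zero]
    split_ifs <;> rfl

theorem cDU_neg (f : ℕ → ℤ) (t : ℕ) : cDU (fun t => - f t) t = cUD f t := by
  induction t with
  | zero => rfl
  | succ t ih =>
    unfold cDU cUD
    rw [ih, lastNZ_neg]
    congr 1
    refine if_congr ?_ rfl rfl
    constructor
    · rintro ⟨h1, h2⟩
      exact ⟨by omega, by omega⟩
    · rintro ⟨h1, h2⟩
      exact ⟨by omega, by omega⟩

theorem ph_of_cUD (f : ℕ → ℤ) (hf : ∀ t, f t = -1 ∨ f t = 0 ∨ f t = 1) (N : ℕ) :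
    Ph f 0 N 0 (0 + (2 * cUD f N + 1)) := by
  have h1 := ph_of_cDU (fun t => - f t) (fun t => by rcases hf t with h | h | h <;> simp [h]) N
  rw [cDU_neg] at h1
  rw [show 1 + (2 * cUD f N + 1) = 0 + (2 * cUD f N + 1) + 1 by ring] at h1
  have h2 := Ph.neg (a := 0) h1
  simpa using h2

end LevelRate
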