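import Pool.Agent.LevelRate.Defs
import Pool.Agent.LevelLower.Path2

/-!
# From a sequence of sets to a system of unit exchanges
-/

set_option linter.unusedSectionVars false

namespace LevelRate

open LevelLower

section path

variable {C : Type} [DecidableEq C]

/-- one exchange -/
def Ex (X Y : Finset C) : Prop :=
  ∃ a b, a ∉ X ∧ b ∈ X ∧ a ∈ Y ∧ b ∉ Y ∧ ∀ c, c ≠ a → c ≠ b → (c ∈ Y ↔ c ∈ X)

theorem Ex.card {X Y : Finset C} (h : Ex X Y) : Y.card = X.card := by
  obtain ⟨a, b, h1, h2, h3, h4, h5⟩ := h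
  have hab : a ≠ b := fun h => h1 (h ▸ h2)
  have e : Y = insert a (X.erase b) := by
    ext c
    rw [Finset.mem_insert, Finset.mem_erase]
    by_cases ha : c = a
    · subst ha
      simp [h3]
    · by_cases hb : c = b
      · subst hb
        simp [h4, ha]
      · rw [h5 c ha hb]
        simp [ha, hb]
  rw [e, Finset.card_insert_of_notMem (by simp [h1]), Finset.card_erase_of_mem h2]
  have : 0 < X.card := Finset.card_pos.2 ⟨b, h2⟩
  omega

/-- the number of elements of `D` with a smaller key -/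
def rkD (D : Finset C) (κ : C → ℕ) (c : C) : ℕ := (D.filter (fun d => κ d < κ c)).card

/-- the number of elements of `U` with a larger key -/
def rkU (U : Finset C) (κ : C → ℕ) (c : C) : ℕ := (U.filter (fun d => κ c < κ d)).card

theorem rkD_lt {D : Finset C} {κ : C → ℕ} {c : C} (hc : c ∈ D) : rkD D κ c < D.card := by
  refine Finset.card_lt_card ((Finset.ssubset_iff_of_subset (Finset.filter_subset _ _)).2
    ⟨c, hc, ?_⟩)
  simp

theorem rkU_lt {U : Finset C} {κ : C → ℕ} {c : C} (hc : c ∈ U) : rkU U κ c < U.card := by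
  refine Finset.card_lt_card ((Finset.ssubset_iff_of_subset (Finset.filter_subset _ _)).2
    ⟨c, hc, ?_⟩)
  simp

theorem rkD_le {D : Finset C} {κ : C → ℕ} {c d : C} (h : κ c ≤ κ d) : rkD D κ c ≤ rkD D κ d := by
  refine Finset.card_le_card (fun e he => ?_)
  rw [Finset.mem_filter] at he ⊢
  exact ⟨he.1, he.2.trans_le h⟩

theorem rkU_le {U : Finset C} {κ : C → ℕ} {c d : C} (h : κ c ≤ κ d) : rkU U κ d ≤ rkU U κ c := by
  refine Finset.card_le_card (fun e he => ?_)
  rw [Finset.mem_filter] at he ⊢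
  exact ⟨he.1, h.trans_lt he.2⟩

theorem rkD_lt_of {D : Finset C} {κ : C → ℕ} {c d : C} (hc : c ∈ D) (h : κ c < κ d) :
    rkD D κ c < rkD D κ d := by
  refine Finset.card_lt_card ((Finset.ssubset_iff_of_subset (fun e he => ?_)).2 ⟨c, ?_, ?_⟩)
  · rw [Finset.mem_filter] at he ⊢
    exact ⟨he.1, he.2.trans h⟩
  · exact Finset.mem_filter.2 ⟨hc, h⟩
  · simp

theorem rkU_lt_of {U : Finset C} {κ : C → ℕ} {c d : C} (hd : d ∈ U) (h : κ c < κ d) :
    rkU U κ d < rkU U κ c := by
  refine Finset.card_lt_card ((Finset.ssubset_iff_of_subset (fun e he => ?_)).2 ⟨d, ?_, ?_⟩)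
  · rw [Finset.mem_filter] at he ⊢
    exact ⟨he.1, h.trans he.2⟩
  · exact Finset.mem_filter.2 ⟨hd, h⟩
  · simp

theorem exists_rk {D : Finset C} (g : C → ℕ) (hlt : ∀ c ∈ D, g c < D.card)
    (hinj : ∀ c ∈ D, ∀ d ∈ D, g c = g d → c = d) {i : ℕ} (hi : i < D.card) :
    ∃ c ∈ D, g c = i := by
  have h1 : D.image g = Finset.range D.card := by
    refine Finset.eq_of_subset_of_card_le (fun x hx => ?_) ?_
    · obtain ⟨c, hc, rfl⟩ := Finset.mem_image.1 hx
      exact Finset.mem_range.2 (hlt c hc)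
    · rw [Finset.card_image_of_injOn (fun c hc d hd h => hinj c hc d hd h), Finset.card_range]
  have h2 : i ∈ D.image g := by
    rw [h1]
    exact Finset.mem_range.2 hi
  obtain ⟨c, hc, h⟩ := Finset.mem_image.1 h2
  exact ⟨c, hc, h⟩

/-- the set after `i` exchanges on the way from `A` to `B` -/
def mid (A B : Finset C) (κ : C → ℕ) (i : ℕ) : Finset C :=
  (A ∪ B).filter (fun c => (c ∈ A ∧ c ∈ B) ∨ (c ∈ A ∧ c ∉ B ∧ i ≤ rkD (A \ B) κ c) ∨
    (c ∉ A ∧ c ∈ B ∧ rkU (B \ A) κ c < i))

theorem mem_mid {A B : Finset C} {κ : C → ℕ} {i : ℕ} {c : C} : c ∈ mid A B κ i ↔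
    (c ∈ A ∧ c ∈ B) ∨ (c ∈ A ∧ c ∉ B ∧ i ≤ rkD (A \ B) κ c) ∨
      (c ∉ A ∧ c ∈ B ∧ rkU (B \ A) κ c < i) := by
  unfold mid
  rw [Finset.mem_filter, Finset.mem_union]
  tauto

theorem mid_zero (A B : Finset C) (κ : C → ℕ) : mid A B κ 0 = A := by
  ext c
  rw [mem_mid]
  by_cases h : c ∈ A <;> by_cases h' : c ∈ B <;> simp [h, h']

theorem mid_last {A B : Finset C} (κ : C → ℕ) (h : A.card = B.card) :
    mid A B κ (A \ B).card = B := by
  have hc : (B \ A).card = (A \ B).card := Finset.card_sdiff_comm h.symm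
  ext c
  rw [mem_mid]
  constructor
  · rintro (h1 | ⟨h1, h2, h3⟩ | h1)
    · exact h1.2
    · have := rkD_lt (κ := κ) (Finset.mem_sdiff.2 ⟨h1, h2⟩)
      omega
    · exact h1.2.1
  · intro hB
    by_cases hA : c ∈ A
    · exact Or.inl ⟨hA, hB⟩
    · refine Or.inr (Or.inr ⟨hA, hB, ?_⟩)
      have := rkU_lt (κ := κ) (Finset.mem_sdiff.2 ⟨hB, hA⟩)
      omega

theorem mid_ex {A B : Finset C} {κ : C → ℕ} (hκ : Function.Injective κ) (h : A.card = B.card)
    {i : ℕ} (hi : i < (A \ B).card) : Ex (mid A B κ i) (mid A B κ (i + 1)) := by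
  have hc : (B \ A).card = (A \ B).card := Finset.card_sdiff_comm h.symm
  have injD : ∀ c ∈ A \ B, ∀ d ∈ A \ B, rkD (A \ B) κ c = rkD (A \ B) κ d → c = d := by
    intro c hc d hd hcd
    rcases lt_trichotomy (κ c) (κ d) with h1 | h1 | h1
    · have := rkD_lt_of hc h1
      omega
    · exact hκ h1
    · have := rkD_lt_of hd h1
      omega
  have injU : ∀ c ∈ B \ A, ∀ d ∈ B \ A, rkU (B \ A) κ c = rkU (B \ A) κ d → c = d := by
    intro c hc d hd hcd
    rcases lt_trichotomy (κ c) (κ d) with h1 | h1 | h1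
    · have := rkU_lt_of hd h1
      omega
    · exact hκ h1
    · have := rkU_lt_of hc h1
      omega
  obtain ⟨d, hd, hdi⟩ := exists_rk (rkD (A \ B) κ) (fun c hc => rkD_lt hc) injD hi
  obtain ⟨u, hu, hui⟩ := exists_rk (rkU (B \ A) κ) (fun c hc => rkU_lt hc) injU
    (show i < (B \ A).card by omega)
  obtain ⟨hd1, hd2⟩ := Finset.mem_sdiff.1 hd
  obtain ⟨hu1, hu2⟩ := Finset.mem_sdiff.1 hu
  refine ⟨u, d, ?_, ?_, ?_, ?_, ?_⟩
  · rw [mem_mid]
    simp only [hu1, hu2, hui]
    simp
  · rw [mem_mid]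
    simp only [hd1, hd2, hdi]
    simp
  · rw [mem_mid]
    simp only [hu1, hu2, hui]
    simp
  · rw [mem_mid]
    simp only [hd1, hd2, hdi]
    simp
  · intro c hcu hcd
    rw [mem_mid, mem_mid]
    by_cases hA : c ∈ A <;> by_cases hB : c ∈ B
    · simp [hA, hB]
    · have : rkD (A \ B) κ c ≠ i := fun h => hcd
        (injD c (Finset.mem_sdiff.2 ⟨hA, hB⟩) d hd (by rw [h, hdi]))
      simp only [hA, hB, true_and, false_and, and_false, not_false_eq_true, not_true_eq_false,
        false_or, or_false]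
      omega
    · have : rkU (B \ A) κ c ≠ i := fun h => hcu
        (injU c (Finset.mem_sdiff.2 ⟨hB, hA⟩) u hu (by rw [h, hui]))
      simp only [hA, hB, true_and, false_and, and_false, not_false_eq_true, not_true_eq_false,
        false_or]
      omega
    · simp [hA, hB]

/-- the sign of a pair on the way -/
theorem mid_sign {A B : Finset C} {κ : C → ℕ} {i : ℕ} {a b : C}
    (hB : a ∈ B → b ∉ B → κ b < κ a)
    (ha : a ∈ mid A B κ i) (hb : b ∉ mid A B κ i) : (a ∈ A ∧ b ∉ A) ∨ κ b < κ a := by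
  rw [mem_mid] at ha hb
  by_contra hcon
  push Not at hcon
  obtain ⟨h1, h2⟩ := hcon
  by_cases bB : b ∈ B
  · by_cases bA : b ∈ A
    · exact hb (Or.inl ⟨bA, bB⟩)
    · -- `b` enters later
      have hb' : ¬ rkU (B \ A) κ b < i := fun h => hb (Or.inr (Or.inr ⟨bA, bB, h⟩))
      have aA : a ∉ A := fun h => bA (h1 h)
      rcases ha with h | h | h
      · exact aA h.1
      · exact aA h.1
      · have := rkU_le (U := B \ A) h2
        omega
  · have aB : a ∉ B := fun h => absurd (hB h bB) (not_lt.2 h2)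
    rcases ha with h | h | h
    · exact aB h.2
    · have bA : b ∈ A := h1 h.1
      have hb' : ¬ i ≤ rkD (A \ B) κ b := fun h' => hb (Or.inr (Or.inl ⟨bA, bB, h'⟩))
      have := rkD_le (D := A \ B) h2
      omega
    · exact aB h.2.1

theorem mid_anti {A B : Finset C} {κ : C → ℕ} {i j : ℕ} (hij : i ≤ j) {a : C} (ha : a ∈ A)
    (h : a ∈ mid A B κ j) : a ∈ mid A B κ i := by
  rw [mem_mid] at h ⊢
  rcases h with h | h | h
  · exact Or.inl h
  · exact Or.inr (Or.inl ⟨h.1, h.2.1, hij.trans h.2.2⟩)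
  · exact absurd ha h.1

theorem mid_mono {A B : Finset C} {κ : C → ℕ} {i j : ℕ} (hij : i ≤ j) {a : C} (ha : a ∉ A)
    (h : a ∈ mid A B κ i) : a ∈ mid A B κ j := by
  rw [mem_mid] at h ⊢
  rcases h with h | h | h
  · exact absurd h.1 ha
  · exact absurd h.1 ha
  · exact Or.inr (Or.inr ⟨h.1, h.2.1, h.2.2.trans_le hij⟩)

theorem sd_cases (S : Finset C) (a b : C) : (sd S a b = 1 ∧ a ∈ S ∧ b ∉ S) ∨
    (sd S a b = -1 ∧ a ∉ S ∧ b ∈ S) ∨ (sd S a b = 0 ∧ (a ∈ S ↔ b ∈ S)) := by
  unfold sd
  by_cases ha : a ∈ S <;> by_cases hb : b ∈ S <;> simp [ha, hb]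

/-- the exchanges between `A` and `B` -/
def blk (A B : Finset C) (κ : C → ℕ) : List (Finset C) :=
  (List.range (A \ B).card).map (fun i => mid A B κ (i + 1))

theorem blk_pairwise_anti {A B : Finset C} {κ : C → ℕ} {a b : C} (ha : a ∈ A) (hb : b ∉ A) :
    (blk A B κ).Pairwise (fun X Y => sd Y a b ≤ sd X a b) := by
  unfold blk
  rw [List.pairwise_map]
  refine List.pairwise_lt_range.imp (fun {i j} hij => ?_)
  have h1 : a ∈ mid A B κ (j + 1) → a ∈ mid A B κ (i + 1) := mid_anti (by omega) ha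
  have h2 : b ∈ mid A B κ (i + 1) → b ∈ mid A B κ (j + 1) := mid_mono (by omega) hb
  unfold sd
  by_cases h3 : a ∈ mid A B κ (j + 1) <;> by_cases h4 : b ∈ mid A B κ (i + 1)
  · simp [h3, h4, h1 h3, h2 h4]
  · simp only [h3, h4, h1 h3, if_true, if_false]
    split_ifs <;> norm_num
  · simp only [h3, h4, h2 h4, if_true, if_false]
    split_ifs <;> norm_num
  · simp only [h3, h4, if_false]
    split_ifs <;> norm_num

theorem blk_AC {A B : Finset C} {κ : C → ℕ} {a b : C} (hne : κ a ≠ κ b)
    (hB : a ∈ B → b ∉ B → κ b < κ a) (hB' : b ∈ B → a ∉ B → κ a < κ b) {p p' : ℕ} (hp : p ≤ p')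
    (h1 : sd A a b ≠ 0 → 0 ≤ (-1) ^ p * sd A a b) (h2 : Even p' ↔ κ b < κ a) : AC (fun X => sd X a b) p p' (blk A B κ) := by
  -- the signs in the block
  have hs1 : ∀ X ∈ blk A B κ, sd X a b = 1 → sd A a b = 1 ∨ κ b < κ a := by
    intro X hX h
    obtain ⟨i, -, rfl⟩ := List.mem_map.1 hX
    rcases sd_cases (mid A B κ (i + 1)) a b with h4 | h4 | h4
    · rcases mid_sign hB h4.2.1 h4.2.2 with h5 | h5
      · left
        unfold sd
        simp [h5.1, h5.2]
      · exact Or.inr h5
    · omega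
    · omega
  have hs2 : ∀ X ∈ blk A B κ, sd X a b = -1 → sd A a b = -1 ∨ κ a < κ b := by
    intro X hX h
    obtain ⟨i, -, rfl⟩ := List.mem_map.1 hX
    rcases sd_cases (mid A B κ (i + 1)) a b with h4 | h4 | h4
    · omega
    · rcases mid_sign hB' h4.2.2 h4.2.1 with h5 | h5
      · left
        unfold sd
        simp [h5.1, h5.2]
      · exact Or.inr h5
    · omega
  -- constant sign
  have hconst : (∀ X ∈ blk A B κ, 0 ≤ (-1) ^ p' * sd X a b) →
      AC (fun X => sd X a b) p p' (blk A B κ) := fun h => AC.const hp le_rfl h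
  rcases lt_or_gt_of_ne hne with hlt | hlt
  · have hodd : Odd p' := by
      rw [← Nat.not_even_iff_odd, h2]
      omega
    rcases sd_cases A a b with h4 | h4 | h4
    · have hpe : Even p := by
        rcases Nat.even_or_odd p with h5 | h5
        · exact h5
        · have := h1 (by omega)
          rw [h5.neg_one_pow, h4.1] at this
          norm_num at this
      have hpp : p + 1 ≤ p' := by
        rcases hp.lt_or_eq with h5 | h5
        · exact h5
        · rw [h5] at hpe
          exact absurd hpe (Nat.not_even_iff_odd.2 hodd)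
      exact (AC.of_antitone hpe (blk_pairwise_anti h4.2.1 h4.2.2)).mono_right hpp
    · refine hconst (fun X hX => ?_)
      rw [hodd.neg_one_pow]
      rcases sd_cases X a b with h5 | h5 | h5
      · rcases hs1 X hX h5.1 with h6 | h6 <;> omega
      · omega
      · omega
    · refine hconst (fun X hX => ?_)
      rw [hodd.neg_one_pow]
      rcases sd_cases X a b with h5 | h5 | h5
      · rcases hs1 X hX h5.1 with h6 | h6 <;> omega
      · omega
      · omega
  · have heven : Even p' := h2.2 hlt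
    rcases sd_cases A a b with h4 | h4 | h4
    · refine hconst (fun X hX => ?_)
      rw [heven.neg_one_pow]
      rcases sd_cases X a b with h5 | h5 | h5
      · omega
      · rcases hs2 X hX h5.1 with h6 | h6 <;> omega
      · omega
    · have hpo : Odd p := by
        rcases Nat.even_or_odd p with h5 | h5
        · have := h1 (by omega)
          rw [h5.neg_one_pow, h4.1] at this
          norm_num at this
        · exact h5
      have hpp : p + 1 ≤ p' := by
        rcases hp.lt_or_eq with h5 | h5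
        · exact h5
        · rw [h5] at hpo
          exact absurd heven (Nat.not_even_iff_odd.2 hpo)
      refine (AC.of_monotone hpo ?_).mono_right hpp
      refine (blk_pairwise_anti (a := b) (b := a) h4.2.2 h4.2.1).imp (fun {X Y} hXY => ?_)
      unfold sd at hXY ⊢
      omega
    · refine hconst (fun X hX => ?_)
      rw [heven.neg_one_pow]
      rcases sd_cases X a b with h5 | h5 | h5
      · omega
      · rcases hs2 X hX h5.1 with h6 | h6 <;> omega
      · omega

theorem blk_ne {A B : Finset C} {κ : C → ℕ} (h : A.card = B.card) (hne : A ≠ B) :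
    1 ≤ (blk A B κ).length := by
  unfold blk
  rw [List.length_map, List.length_range]
  by_contra hcon
  have h1 : A \ B = ∅ := Finset.card_eq_zero.1 (by omega)
  rw [Finset.sdiff_eq_empty_iff_subset] at h1
  exact hne (Finset.eq_of_subset_of_card_le h1 h.ge)

theorem blk_chain {A B : Finset C} {κ : C → ℕ} (hκ : Function.Injective κ) (h : A.card = B.card)
    {L : List (Finset C)} (hL : (B :: L).IsChain Ex) : (A :: (blk A B κ ++ L)).IsChain Ex := by
  have key : ∀ r, r ≤ (A \ B).card → ∀ i, i + r = (A \ B).card →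
      (mid A B κ i :: ((List.range' i r).map (fun i => mid A B κ (i + 1)) ++ L)).IsChain Ex := by
    intro r
    induction r with
    | zero =>
      intro _ i hi
      rw [show i = (A \ B).card by omega, mid_last κ h]
      simpa using hL
    | succ r ih =>
      intro hr i hi
      rw [List.range'_succ, List.map_cons, List.cons_append]
      refine List.IsChain.cons_cons (mid_ex hκ h (by omega)) ?_
      exact ih (by omega) (i + 1) (by omega)
  have := key (A \ B).card le_rfl 0 (by omega)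
  rw [mid_zero] at this
  unfold blk
  rwa [List.range_eq_range']

end path

section main

variable {C : Type} [Fintype C] [DecidableEq C]

/-- the key of an element: the last `r` sets, then the index -/
noncomputable def kyr (S : ℕ → Finset C) (N : ℕ) : ℕ → C → ℕ
  | 0, c => (Fintype.equivFin C c : ℕ)
  | r + 1, c => (if c ∈ S (N - r) then Fintype.card C * 2 ^ r else 0) + kyr S N r c

theorem kyr_lt (S : ℕ → Finset C) (N r : ℕ) (c : C) : kyr S N r c < Fintype.card C * 2 ^ r := by
  induction r with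
  | zero =>
    simp only [kyr, pow_zero, mul_one]
    exact (Fintype.equivFin C c).2
  | succ r ih =>
    rw [kyr, pow_succ]
    split_ifs
    · linarith
    · have : 0 < 2 ^ r := by positivity
      nlinarith

theorem kyr_inj (S : ℕ → Finset C) (N r : ℕ) : Function.Injective (kyr S N r) := by
  induction r with
  | zero =>
    intro a b h
    simp only [kyr] at h
    exact (Fintype.equivFin C).injective (Fin.ext h)
  | succ r ih =>
    intro a b h
    rw [kyr, kyr] at h
    have h1 := kyr_lt S N r a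
    have h2 := kyr_lt S N r b
    apply ih
    split_ifs at h <;> omega

theorem kyr_pos (S : ℕ → Finset C) (N r : ℕ) {a b : C} (ha : a ∈ S (N - r)) (hb : b ∉ S (N - r)) :
    kyr S N (r + 1) b < kyr S N (r + 1) a := by
  rw [kyr, kyr, if_pos ha, if_neg hb]
  have := kyr_lt S N r b
  omega

theorem kyr_same (S : ℕ → Finset C) (N r : ℕ) {a b : C} (h : a ∈ S (N - r) ↔ b ∈ S (N - r)) :
    kyr S N (r + 1) b < kyr S N (r + 1) a ↔ kyr S N r b < kyr S N r a := by
  rw [kyr, kyr]
  by_cases ha : a ∈ S (N - r)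
  · rw [if_pos ha, if_pos (h.1 ha)]
    omega
  · rw [if_neg ha, if_neg (fun hb => ha (h.2 hb))]
    omega

/-- the exchanges of the last `r` steps -/
noncomputable def fl (S : ℕ → Finset C) (N : ℕ) : ℕ → List (Finset C)
  | 0 => []
  | r + 1 => blk (S (N - (r + 1))) (S (N - r)) (kyr S N (r + 1)) ++ fl S N r

theorem fl_chain (S : ℕ → Finset C) {N k : ℕ} (hcard : ∀ t ≤ N, (S t).card = k) (r : ℕ) :
    (S (N - r) :: fl S N r).IsChain Ex := by
  induction r with
  | zero => simp [fl]
  | succ r ih =>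
    rw [fl]
    exact blk_chain (kyr_inj S N (r + 1)) (by rw [hcard _ (by omega), hcard _ (by omega)]) ih

theorem fl_length (S : ℕ → Finset C) {N k : ℕ} (hcard : ∀ t ≤ N, (S t).card = k)
    (hne : ∀ t < N, S t ≠ S (t + 1)) {r : ℕ} (hr : r ≤ N) : r ≤ (fl S N r).length := by
  induction r with
  | zero => omega
  | succ r ih =>
    rw [fl, List.length_append]
    have h1 := ih (by omega)
    have h2 := blk_ne (κ := kyr S N (r + 1)) (A := S (N - (r + 1))) (B := S (N - r))
      (by rw [hcard _ (by omega), hcard _ (by omega)]) (by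
        have := hne (N - (r + 1)) (by omega)
        rwa [show N - (r + 1) + 1 = N - r by omega] at this)
    omega

theorem sgn_even {f : ℤ} {p : ℕ} (h : 0 ≤ (-1) ^ p * f) (hf : f = 1) : Even p := by
  rcases Nat.even_or_odd p with h1 | h1
  · exact h1
  · rw [h1.neg_one_pow, hf] at h
    norm_num at h

theorem sgn_odd {f : ℤ} {p : ℕ} (h : 0 ≤ (-1) ^ p * f) (hf : f = -1) : ¬ Even p := by
  intro h1
  rw [h1.neg_one_pow, hf] at h
  norm_num at h

/-- the certificate along the exchanges -/
theorem fl_AC (S : ℕ → Finset C) {N s p : ℕ} {a b : C} (hab : a ≠ b) {φ : ℕ → ℕ}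
    (hφ : Monotone φ) (hφ1 : ∀ t, p ≤ φ t ∧ φ t ≤ p + s)
    (hφ2 : ∀ t ≤ N, 0 ≤ (-1) ^ (φ t) * sd (S t) a b) {r : ℕ} (hr : r ≤ N) :
    ∃ ψ, φ (N - r) ≤ ψ ∧ (Even ψ ↔ kyr S N (r + 1) b < kyr S N (r + 1) a) ∧
      (sd (S (N - r)) a b ≠ 0 → ψ = φ (N - r)) ∧
      AC (fun X => sd X a b) ψ (p + s + 1) (S (N - r) :: fl S N r) := by
  have hpar : ∀ r ≤ N, sd (S (N - r)) a b ≠ 0 →
      (Even (φ (N - r)) ↔ kyr S N (r + 1) b < kyr S N (r + 1) a) := by
    intro r _ h0
    have h1 := hφ2 (N - r) (by omega)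
    rcases sd_cases (S (N - r)) a b with h | h | h
    · exact ⟨fun _ => kyr_pos S N r h.2.1 h.2.2, fun _ => sgn_even h1 h.1⟩
    · have h2 := kyr_pos S N r h.2.2 h.2.1
      exact ⟨fun h3 => absurd h3 (sgn_odd h1 h.1), fun h3 => by omega⟩
    · exact absurd h.1 h0
  induction r with
  | zero =>
    have hb := hφ1 (N - 0)
    by_cases h0 : sd (S (N - 0)) a b = 0
    · obtain ⟨ψ, h1, h2, h3⟩ : ∃ ψ, p + s ≤ ψ ∧ ψ ≤ p + s + 1 ∧
          (Even ψ ↔ kyr S N (0 + 1) b < kyr S N (0 + 1) a) := by
        by_cases h : (Even (p + s) ↔ kyr S N (0 + 1) b < kyr S N (0 + 1) a)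
        · exact ⟨p + s, le_rfl, by omega, h⟩
        · refine ⟨p + s + 1, by omega, le_rfl, ?_⟩
          rw [Nat.even_add_one]
          tauto
      refine ⟨ψ, by omega, h3, fun h => absurd h0 h, ?_⟩
      refine .cons le_rfl ?_ (.nil h2)
      rw [h0, mul_zero]
    · refine ⟨φ (N - 0), le_rfl, hpar 0 (by omega) h0, fun _ => rfl, ?_⟩
      exact .cons le_rfl (hφ2 (N - 0) (by omega)) (.nil (by omega))
  | succ r ih =>
    obtain ⟨ψ', h1, h2, h3, h4⟩ := ih (by omega)
    have hmono : φ (N - (r + 1)) ≤ φ (N - r) := hφ (by omega)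
    have hrest : AC (fun X => sd X a b) ψ' (p + s + 1) (fl S N r) := by
      cases h4 with
      | cons h hx hL => exact hL.mono_left h
    have hκ : kyr S N (r + 1) a ≠ kyr S N (r + 1) b := fun h => hab (kyr_inj S N (r + 1) h)
    by_cases h0 : sd (S (N - (r + 1))) a b = 0
    · refine ⟨ψ', by omega, ?_, fun h => absurd h0 h, ?_⟩
      · rw [h2]
        refine (kyr_same S N (r + 1) ?_).symm
        rcases sd_cases (S (N - (r + 1))) a b with h | h | h
        · omega
        · omega
        · exact h.2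
      · rw [fl]
        refine .cons le_rfl (by rw [h0, mul_zero]) ?_
        exact (blk_AC hκ (fun ha hb => kyr_pos S N r ha hb) (fun hb ha => kyr_pos S N r hb ha)
          le_rfl (fun h => absurd h0 h) h2).append hrest
    · refine ⟨φ (N - (r + 1)), le_rfl, hpar (r + 1) hr h0, fun _ => rfl, ?_⟩
      rw [fl]
      refine .cons le_rfl (hφ2 _ (by omega)) ?_
      exact (blk_AC hκ (fun ha hb => kyr_pos S N r ha hb) (fun hb ha => kyr_pos S N r hb ha)
          (by omega) (fun _ => hφ2 _ (by omega)) h2).append hrest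

theorem Ph_shift {f : ℕ → ℤ} {t₀ t₁ a b q : ℕ} (h : Ph f t₀ t₁ a b) (hq : Even a ↔ Even q) :
    Ph f t₀ t₁ q (q + (b - a)) := by
  obtain ⟨φ, h1, h2, h3⟩ := h
  refine ⟨fun t => φ t - a + q, fun t t' htt => ?_, fun t => ?_, fun t ht ht' => ?_⟩
  · have := h1 htt
    have := (h2 t).1
    dsimp only
    omega
  · have := h2 t
    dsimp only
    omega
  · have h4 := h3 t ht ht'
    have h5 : (-1 : ℤ) ^ (φ t - a + q) = (-1) ^ (φ t) := by
      have h6 := (h2 t).1
      rcases Nat.even_or_odd (φ t) with h7 | h7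
      · have : Even (φ t - a + q) := by
          rw [Nat.even_add, Nat.even_sub h6, ← hq]
          tauto
        rw [h7.neg_one_pow, this.neg_one_pow]
      · have : Odd (φ t - a + q) := by
          rw [← Nat.not_even_iff_odd, Nat.even_add, Nat.even_sub h6, ← hq]
          rw [← Nat.not_even_iff_odd] at h7
          tauto
        rw [h7.neg_one_pow, this.neg_one_pow]
    dsimp only
    rw [h5]
    exact h4

/-- From a sequence of `k`-subsets to a system of unit exchanges: the elements that leave (enter)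
between `S t` and `S (t+1)` are ordered by their future, then by an index. -/
theorem sys_of_seq {N s k : ℕ} (S : ℕ → Finset C)
    (hN : 0 < N) (hcard : ∀ t ≤ N, (S t).card = k) (hne : ∀ t < N, S t ≠ S (t + 1))
    (hs : ∀ a b, a ≠ b → ∃ p, Ph (fun t => sd (S t) a b) 0 (N + 1) p (p + s)) :
    ∃ T, N ≤ T ∧ HasSys2 (s + 1) (Fintype.card C) T := by
  -- the list of all states
  obtain ⟨Z, hZ⟩ : ∃ Z, Z = S 0 :: fl S N N := ⟨_, rfl⟩
  have hchain : Z.IsChain Ex := by
    have := fl_chain S hcard N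
    rwa [Nat.sub_self, ← hZ] at this
  have hlen : Z.length = (fl S N N).length + 1 := by rw [hZ, List.length_cons]
  have hT := fl_length S hcard hne (le_refl N)
  obtain ⟨T, hTdef⟩ : ∃ T, T = (fl S N N).length := ⟨_, rfl⟩
  rw [← hTdef] at hlen hT
  -- the states as functions of time
  obtain ⟨X, hX⟩ : ∃ X : ℕ → Finset C, ∀ t, X t = Z.getD t ∅ := ⟨_, fun _ => rfl⟩
  have hXget : ∀ (t : ℕ) (ht : t < Z.length), X t = Z[t] := fun t ht => by
    rw [hX, List.getD_eq_getElem _ _ ht]
  have hX0 : X 0 = S 0 := by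
    rw [hX, hZ]
    rfl
  have hex : ∀ t < T, Ex (X t) (X (t + 1)) := by
    intro t ht
    rw [hXget t (by omega), hXget (t + 1) (by omega)]
    exact List.isChain_iff_getElem.1 hchain t (by omega)
  have hXcard : ∀ t ≤ T, (X t).card = k := by
    intro t ht
    induction t with
    | zero => rw [hX0, hcard 0 (by omega)]
    | succ t ih => rw [(hex t (by omega)).card, ih (by omega)]
  -- the certificates
  have hcert : ∀ a b, a ≠ b → ∀ q, (Even q ↔ kyr S N (N + 1) b < kyr S N (N + 1) a) →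
      Ph (fun t => sd (X t) a b) 0 (T + 1) q (q + (s + 1)) := by
    intro a b hab q hq
    obtain ⟨p, φ, h1, h2, h3⟩ := hs a b hab
    obtain ⟨ψ, h4, h5, -, h6⟩ := fl_AC S (N := N) (s := s) (p := p) hab h1 h2
      (fun t ht => h3 t (by omega) (by omega)) (le_refl N)
    rw [Nat.sub_self, ← hZ] at h6
    have h7 : Ph (fun t => sd (X t) a b) 0 Z.length ψ (p + s + 1) :=
      h6.toPh (fun t ht => by rw [hXget t ht])
    have h8 := Ph_shift h7 (q := q) (by rw [h5, hq])
    rw [hlen] at h8
    refine h8.mono le_rfl ?_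
    have := (h2 (N - N)).1
    omega
  refine ⟨T, hT, ?_⟩
  refine HasSys2.of_fintype (C := C) rfl (K := Fintype.card C - k)
    (w := ⟨fun _ => 0, fun _ => T, fun c => if c ∈ S 0 then
      Fintype.card C * 2 ^ (N + 1) - kyr S N (N + 1) c else kyr S N (N + 1) c⟩)
    (x := fun t c => if c ∈ X t then 1 else 0) ⟨?_, ?_, ?_, ?_, ?_, ?_⟩
  · intro t c
    split_ifs
    · exact Or.inr rfl
    · exact Or.inl rfl
  · intro c
    exact ⟨by dsimp only; omega, le_rfl⟩
  · intro t ht
    obtain ⟨a, b, h1, h2, h3, h4, h5⟩ := hex t ht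
    refine ⟨a, b, ⟨Nat.zero_le _, ht⟩, ⟨Nat.zero_le _, ht⟩, if_neg h1, if_pos h3, if_pos h2,
      if_neg h4, fun c hca hcb => ?_⟩
    exact if_congr (h5 c hca hcb) rfl rfl
  · intro t ht
    have e : (Finset.univ.filter (fun c : C => (0 ≤ t ∧ t + 1 ≤ T ∧
        (if c ∈ X t then (1 : ℤ) else 0) = 0))) = (X t)ᶜ := by
      ext c
      rw [Finset.mem_filter, Finset.mem_compl]
      constructor
      · rintro ⟨-, -, -, h⟩ hc
        rw [if_pos hc] at h
        norm_num at h
      · intro hc
        exact ⟨Finset.mem_univ _, Nat.zero_le _, ht, if_neg hc⟩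
    dsimp only
    rw [e, Finset.card_compl, hXcard t (by omega)]
  · intro a b hold q hq
    have hrk : (if a ∈ S 0 then Fintype.card C * 2 ^ (N + 1) - kyr S N (N + 1) a
        else kyr S N (N + 1) a) < (if b ∈ S 0 then
        Fintype.card C * 2 ^ (N + 1) - kyr S N (N + 1) b else kyr S N (N + 1) b) := by
      rcases hold with h | h
      · exact absurd h (by dsimp only; omega)
      · exact h.2
    have hab : a ≠ b := by
      rintro rfl
      omega
    have hka := kyr_lt S N (N + 1) a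
    have hkb := kyr_lt S N (N + 1) b
    have hpos : ∀ a b : C, a ∈ S 0 → b ∉ S 0 → kyr S N (N + 1) b < kyr S N (N + 1) a :=
      fun a b ha hb => kyr_pos S N N (by rwa [Nat.sub_self]) (by rwa [Nat.sub_self])
    have hq' : Even q ↔ a ∈ S 0 := by
      dsimp only at hq
      rw [hX0] at hq
      by_cases ha : a ∈ S 0
      · rw [if_pos ha] at hq
        refine ⟨fun _ => ha, fun _ => sgn_even (f := 1) (by linarith) rfl⟩
      · rw [if_neg ha] at hq
        refine ⟨fun h => absurd h (sgn_odd (f := -1) (by linarith) rfl), fun h => absurd h ha⟩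
    have hmin : min T T + 1 = T + 1 := by rw [min_self]
    dsimp only
    rw [hmin]
    refine (hcert a b hab q ?_)
    rw [hq']
    by_cases ha : a ∈ S 0 <;> by_cases hb : b ∈ S 0
    · rw [if_pos ha, if_pos hb] at hrk
      exact ⟨fun _ => by omega, fun _ => ha⟩
    · exact ⟨fun _ => hpos a b ha hb, fun _ => ha⟩
    · have := hpos b a hb ha
      exact ⟨fun h => absurd h ha, fun h => by omega⟩
    · rw [if_neg ha, if_neg hb] at hrk
      exact ⟨fun h => absurd h ha, fun h => by omega⟩
  · intro a b hab _ hrk q hq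
    dsimp only at hrk hq ⊢
    have hka := kyr_lt S N (N + 1) a
    have hkb := kyr_lt S N (N + 1) b
    have hkk : kyr S N (N + 1) a ≠ kyr S N (N + 1) b := fun h => hab (kyr_inj S N (N + 1) h)
    have hpos : ∀ a b : C, a ∈ S 0 → b ∉ S 0 → kyr S N (N + 1) b < kyr S N (N + 1) a :=
      fun a b ha hb => kyr_pos S N N (by rwa [Nat.sub_self]) (by rwa [Nat.sub_self])
    rw [min_self]
    refine hcert a b hab q ?_
    rw [hX0] at hq
    by_cases ha : a ∈ S 0 <;> by_cases hb : b ∈ S 0
    · rw [if_pos ha, if_pos hb] at hrk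
      omega
    · rw [if_pos ha, if_neg hb] at hq
      exact ⟨fun _ => hpos a b ha hb, fun _ => sgn_even (f := 1) (by linarith) rfl⟩
    · rw [if_neg ha, if_pos hb] at hq
      have := hpos b a hb ha
      exact ⟨fun h => absurd h (sgn_odd (f := -1) (by linarith) rfl), fun h => by omega⟩
    · rw [if_neg ha, if_neg hb] at hrk
      omega

end main

end LevelRate
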