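import Pool.Agent.LevelRate.Laws

/-!
# The tapes form a system
-/

namespace LevelRate

open LevelLower

theorem ce_succ_fst (m j : ℕ) : (ce m (j + 1)).1 = m * (ce m j).1 + kp m (j + 1) := rfl

theorem ce_succ_snd (m j : ℕ) : (ce m (j + 1)).2 = m * ((ce m j).1 + (ce m j).2) := rfl

/-- the coefficient of the previous row -/
def pe (m : ℕ) : ℕ → ℕ
  | 0 => 0
  | n + 1 => m * (3 * (ce m n).1 + 6 * (ce m n).2)

theorem dl_pe (m n : ℕ) : dl m n + pe m n = 3 * (ce m n).1 + 6 * (ce m n).2 := by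
  cases n with
  | zero => simp [dl, pe, ce]
  | succ n =>
    rw [ce_succ_fst, ce_succ_snd, dl, pe]
    ring

theorem eta_succ (l j t : ℕ) : eta l (j + 1) t = eta l j t + dl (2 ^ l) j * Yc l j t := by
  rw [eta, Finset.sum_range_succ]
  rfl

theorem balance_aux {l : ℕ} (hl : 1 ≤ l) (j t : ℕ) :
    ∑ i ∈ Finset.range (j + 1), Phi l i t =
      (ce (2 ^ l) j).1 * lam l j t + 3 * (ce (2 ^ l) j).2 * Xc l j t + eta l j t
        - pe (2 ^ l) j * Yc l j t + (2 ^ l - 1) * ∑ n ∈ Finset.range j, (om (2 ^ l) n : ℤ) := by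
  induction j with
  | zero => simp [Phi, ce, pe, eta]
  | succ j ih =>
    rw [Finset.sum_range_succ, ih, Phi_succ, ce_succ_fst, ce_succ_snd,
      Finset.sum_range_succ (fun n => (om (2 ^ l) n : ℤ))]
    have h4 := Rf_eq (two_le_pow hl) (Xc l j t)
    have h5 := Nat.div_add_mod (Xc l j t) (2 ^ l)
    rw [← Xc_succ] at h4 h5
    have h7 := dl_pe (2 ^ l) j
    have h8 : pe (2 ^ l) (j + 1) =
      2 ^ l * (3 * (ce (2 ^ l) j).1 + 6 * (ce (2 ^ l) j).2) := rfl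
    have h9 : om (2 ^ l) j = 2 * (ce (2 ^ l) j).1 + 3 * (ce (2 ^ l) j).2 := rfl
    rw [eta_succ, h8, h9]
    unfold act lam
    zify at h4 h5 h7
    push_cast
    linear_combination ((ce (2 ^ l) j).1 : ℤ) * h4 - (Yc l j t : ℤ) * h7 +
      2 * ((ce (2 ^ l) j).1 : ℤ) * h5

theorem Xc_top {l K t : ℕ} (ht : t < (4 ^ l) ^ K) : Xc l K t = 0 := by
  rw [← pow_mul] at ht
  rw [Xc, ← pow_mul]
  exact Nat.div_eq_of_lt (zx_lt ht)

theorem Yc_top {l K t : ℕ} (ht : t < (4 ^ l) ^ K) : Yc l K t = 0 := by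
  rw [← pow_mul] at ht
  rw [Yc, ← pow_mul]
  exact Nat.div_eq_of_lt (zy_lt ht)

theorem Yc_lt {l K i k t : ℕ} (hk : i + k = K) (ht : t < (4 ^ l) ^ K) :
    Yc l i t < (2 ^ l) ^ k := by
  have h1 := Yc_top ht
  rw [← hk, Yc_add] at h1
  exact (Nat.div_eq_zero_iff_lt (by positivity)).1 h1

/-- balance -/
theorem balance {l K : ℕ} (hl : 1 ≤ l) {t : ℕ} (ht : t < (4 ^ l) ^ K) :
    ∑ i ∈ Finset.range (K + 1), Phi l i t - eta l K t =
      (2 ^ l - 1) * ∑ n ∈ Finset.range K, (om (2 ^ l) n : ℤ) := by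
  rw [balance_aux hl K t]
  have h1 := Xc_top ht
  have h2 := Yc_top ht
  unfold lam
  rw [h1, h2, Rf_zero]
  push_cast
  ring

/-- bounds for the label -/
theorem lam_bounds {l K i k t : ℕ} (hl : 1 ≤ l) (hk : i + k = K) (ht : t < (4 ^ l) ^ K) :
    -((2 ^ l) ^ k - 1) ≤ lam l i t ∧ lam l i t ≤ (3 * k - 1) * ((2 ^ l) ^ k - 1) := by
  obtain ⟨ρ, h1, h2, h3⟩ := Rf_levels (two_le_pow hl) k (Xc l i t)
  rw [← Xc_add, hk, Xc_top ht, Rf_zero] at h1
  have h4 := Yc_lt hk ht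
  have h4' : (Yc l i t : ℤ) < (2 ^ l) ^ k := by exact_mod_cast h4
  rw [Nat.cast_pow, Nat.cast_ofNat] at h1 h3
  unfold lam
  rw [h1]
  push_cast
  constructor
  · omega
  · omega

/-- the static tape is bounded -/
theorem eta_aux (l j t : ℕ) :
    (eta l j t : ℤ) = ∑ n ∈ Finset.range j, (3 * ((ce (2 ^ l) n).1 : ℤ) + 6 * (ce (2 ^ l) n).2) *
      ((Yc l n t : ℤ) - 2 ^ l * Yc l (n + 1) t) + pe (2 ^ l) j * Yc l j t := by
  induction j with
  | zero => simp [eta, pe]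
  | succ j ih =>
    have h7 := dl_pe (2 ^ l) j
    have h8 : pe (2 ^ l) (j + 1) =
      2 ^ l * (3 * (ce (2 ^ l) j).1 + 6 * (ce (2 ^ l) j).2) := rfl
    rw [eta_succ, Finset.sum_range_succ, h8]
    push_cast
    rw [ih]
    zify at h7
    linear_combination (Yc l j t : ℤ) * h7

theorem eta_le {l K t : ℕ} (ht : t < (4 ^ l) ^ K) :
    eta l K t ≤ ∑ n ∈ Finset.range K, kp (2 ^ l) (n + 1) := by
  have h1 := eta_aux l K t
  rw [Yc_top ht] at h1
  zify
  rw [h1]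
  simp only [Nat.cast_zero, mul_zero, add_zero]
  refine Finset.sum_le_sum (fun n _ => ?_)
  have h2 := digit_Y l n t
  have h3 : (kp (2 ^ l) (n + 1) : ℤ) =
      3 * (2 ^ l - 1) * (2 * (ce (2 ^ l) n).1 + 3 * (ce (2 ^ l) n).2) := by
    rw [kp_succ, om]
    have : 1 ≤ 2 ^ l := Nat.one_le_two_pow
    push_cast [Nat.cast_sub this]
    ring
  rw [h3]
  have hc : (0 : ℤ) ≤ (ce (2 ^ l) n).1 := by positivity
  have he : (0 : ℤ) ≤ (ce (2 ^ l) n).2 := by positivity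
  have hm : (0 : ℤ) ≤ 2 ^ l - 1 := by
    have : (1 : ℤ) ≤ 2 ^ l := by exact_mod_cast Nat.one_le_two_pow (n := l)
    omega
  calc (3 * ((ce (2 ^ l) n).1 : ℤ) + 6 * (ce (2 ^ l) n).2) *
      ((Yc l n t : ℤ) - 2 ^ l * Yc l (n + 1) t)
      ≤ (3 * ((ce (2 ^ l) n).1 : ℤ) + 6 * (ce (2 ^ l) n).2) * (2 ^ l - 1) :=
        mul_le_mul_of_nonneg_left h2.2 (by positivity)
    _ ≤ 3 * (2 ^ l - 1) * (2 * (ce (2 ^ l) n).1 + 3 * (ce (2 ^ l) n).2) := by
        nlinarith [mul_nonneg hm hc, mul_nonneg hm he]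

theorem eta_lt {l K : ℕ} (hK : 1 ≤ K) {p q : ℕ} (h : zy p < zy q) : eta l K p < eta l K q := by
  obtain ⟨n, rfl⟩ : ∃ n, K = n + 1 := ⟨K - 1, by omega⟩
  unfold eta
  rw [Finset.sum_range_succ', Finset.sum_range_succ']
  have h1 : ∑ k ∈ Finset.range n, dl (2 ^ l) (k + 1) * Yc l (k + 1) p ≤
      ∑ k ∈ Finset.range n, dl (2 ^ l) (k + 1) * Yc l (k + 1) q :=
    Finset.sum_le_sum (fun n _ => Nat.mul_le_mul_left _ (Nat.div_le_div_right h.le))
  have h2 : ∀ t, Yc l 0 t = zy t := fun t => by simp [Yc]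
  rw [h2, h2]
  have h3 : dl (2 ^ l) 0 = 3 := rfl
  rw [h3]
  omega

/-- sums of the sizes -/
theorem sum_kp (m K : ℕ) : ∑ i ∈ Finset.range (K + 1), kp m i * m ^ (K - i) = (ce m K).1 := by
  induction K with
  | zero => simp [kp, ce]
  | succ K ih =>
    rw [Finset.sum_range_succ, ce_succ_fst, ← ih, Finset.mul_sum]
    simp only [Nat.sub_self, pow_zero, mul_one]
    congr 1
    refine Finset.sum_congr rfl (fun i hi => ?_)
    have : i ≤ K := by
      have := Finset.mem_range.1 hi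
      omega
    rw [show K + 1 - i = K - i + 1 by omega, pow_succ]
    ring

theorem sum_kp_mul (m K : ℕ) :
    ∑ i ∈ Finset.range (K + 1), kp m i * ((K - i) * m ^ (K - i)) = (ce m K).2 := by
  induction K with
  | zero => simp [ce]
  | succ K ih =>
    rw [Finset.sum_range_succ, ce_succ_snd, ← sum_kp, ← ih, ← Finset.sum_add_distrib,
      Finset.mul_sum]
    simp only [Nat.sub_self, zero_mul, mul_zero, add_zero]
    refine Finset.sum_congr rfl (fun i hi => ?_)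
    have : i ≤ K := by
      have := Finset.mem_range.1 hi
      omega
    rw [show K + 1 - i = K - i + 1 by omega, pow_succ]
    ring

theorem sum_kp_le {m : ℕ} (hm : 1 ≤ m) (K : ℕ) :
    ∑ i ∈ Finset.range (K + 1), kp m i ≤ (ce m K).1 := by
  rw [← sum_kp]
  refine Finset.sum_le_sum (fun i _ => ?_)
  exact Nat.le_mul_of_pos_right _ (by positivity)

end LevelRate
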