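import Pool.Agent.LevelRate.System

/-!
# The heights of the tapes
-/

namespace LevelRate

open LevelLower

/-- height of `P_i`, shifted -/
def hP (l K i t : ℕ) : ℕ := (Phi l i t + kp (2 ^ l) i * ((2 ^ l) ^ (K - i) - 1)).toNat

/-- height of the static tape -/
def hY (l K t : ℕ) : ℕ := (∑ n ∈ Finset.range K, kp (2 ^ l) (n + 1)) - eta l K t

theorem hP_cast {l K i t : ℕ} (hl : 1 ≤ l) (hi : i ≤ K) (ht : t < (4 ^ l) ^ K) :
    (hP l K i t : ℤ) = Phi l i t + kp (2 ^ l) i * ((2 ^ l) ^ (K - i) - 1) := by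
  unfold hP
  rw [Int.toNat_of_nonneg]
  have h1 := (lam_bounds (K := K) (i := i) (k := K - i) hl (by omega) ht).1
  have h2 := (Phi_bounds (l := l) i t).1
  have hk : (0 : ℤ) ≤ kp (2 ^ l) i := by positivity
  have h3 : (kp (2 ^ l) i : ℤ) * (-((2 ^ l) ^ (K - i) - 1)) ≤ kp (2 ^ l) i * lam l i t :=
    mul_le_mul_of_nonneg_left h1 hk
  linarith

theorem hP_le {l K i t : ℕ} (hl : 1 ≤ l) (hi : i ≤ K) (ht : t < (4 ^ l) ^ K) :
    hP l K i t ≤ kp (2 ^ l) i * (3 * ((K - i) * (2 ^ l) ^ (K - i)) + 1) := by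
  zify
  rw [hP_cast hl hi ht]
  have h1 := (lam_bounds (K := K) (i := i) (k := K - i) hl (by omega) ht).2
  have h2 := (Phi_bounds (l := l) i t).2
  have hk : (0 : ℤ) ≤ kp (2 ^ l) i := by positivity
  have h4 : (kp (2 ^ l) i : ℤ) * (lam l i t + 1) ≤
      kp (2 ^ l) i * ((3 * ((K - i : ℕ) : ℤ) - 1) * ((2 ^ l) ^ (K - i) - 1) + 1) :=
    mul_le_mul_of_nonneg_left (by omega) hk
  have h5 : (0 : ℤ) ≤ (kp (2 ^ l) i : ℤ) * (K - i : ℕ) := by positivity
  have e : (kp (2 ^ l) i : ℤ) * (3 * (((K - i : ℕ) : ℤ) * (2 ^ l) ^ (K - i)) + 1) =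
      kp (2 ^ l) i * ((3 * ((K - i : ℕ) : ℤ) - 1) * ((2 ^ l) ^ (K - i) - 1) + 1) +
      kp (2 ^ l) i * ((2 ^ l) ^ (K - i) - 1) + 3 * (kp (2 ^ l) i * (K - i : ℕ)) := by ring
  rw [e]
  linarith

theorem hY_cast {l K t : ℕ} (ht : t < (4 ^ l) ^ K) :
    (hY l K t : ℤ) = (∑ n ∈ Finset.range K, (kp (2 ^ l) (n + 1) : ℤ)) - eta l K t := by
  unfold hY
  rw [Nat.cast_sub (eta_le ht)]
  push_cast
  rfl

/-- the heights: `0` is the static tape, `i + 1` is `P_i` -/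
def hh (l K : ℕ) : Fin (K + 2) → ℕ → ℕ :=
  Fin.cases (fun t => hY l K t) (fun i t => hP l K i t)

/-- the sizes -/
def hs (l K : ℕ) : Fin (K + 2) → ℕ :=
  Fin.cases (∑ n ∈ Finset.range K, kp (2 ^ l) (n + 1))
    (fun i => kp (2 ^ l) i * (3 * ((K - i) * (2 ^ l) ^ (K - i)) + 1))

theorem hh_zero (l K : ℕ) : hh l K 0 = hY l K := rfl

theorem hh_succ (l K : ℕ) (i : Fin (K + 1)) : hh l K i.succ = hP l K i := rfl

theorem hh_le {l K t : ℕ} (hl : 1 ≤ l) (ht : t < (4 ^ l) ^ K) (τ : Fin (K + 2)) :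
    hh l K τ t ≤ hs l K τ := by
  refine Fin.cases ?_ (fun i => ?_) τ
  · exact Nat.sub_le _ _
  · exact hP_le hl (by omega) ht

theorem sum_hs {l K : ℕ} : ∑ τ, hs l K τ ≤ 2 * (ce (2 ^ l) K).1 + 3 * (ce (2 ^ l) K).2 := by
  rw [Fin.sum_univ_succ]
  have e1 : hs l K 0 = ∑ n ∈ Finset.range K, kp (2 ^ l) (n + 1) := rfl
  have e2 : ∑ i : Fin (K + 1), hs l K i.succ =
      ∑ i ∈ Finset.range (K + 1), kp (2 ^ l) i * (3 * ((K - i) * (2 ^ l) ^ (K - i)) + 1) :=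
    Fin.sum_univ_eq_sum_range
      (fun i => kp (2 ^ l) i * (3 * ((K - i) * (2 ^ l) ^ (K - i)) + 1)) (K + 1)
  rw [e1, e2]
  have h1 := sum_kp_le (m := 2 ^ l) Nat.one_le_two_pow K
  have h2 := sum_kp_mul (2 ^ l) K
  have h3 : ∑ n ∈ Finset.range K, kp (2 ^ l) (n + 1) ≤ ∑ i ∈ Finset.range (K + 1), kp (2 ^ l) i := by
    rw [Finset.sum_range_succ']
    omega
  have h4 : ∑ i ∈ Finset.range (K + 1), kp (2 ^ l) i * (3 * ((K - i) * (2 ^ l) ^ (K - i)) + 1) =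
      3 * ∑ i ∈ Finset.range (K + 1), kp (2 ^ l) i * ((K - i) * (2 ^ l) ^ (K - i)) +
      ∑ i ∈ Finset.range (K + 1), kp (2 ^ l) i := by
    rw [Finset.mul_sum, ← Finset.sum_add_distrib]
    refine Finset.sum_congr rfl (fun i _ => ?_)
    ring
  omega

theorem sum_hh {l K t : ℕ} (hl : 1 ≤ l) (ht : t < (4 ^ l) ^ K) :
    ∑ τ, hh l K τ t = ∑ τ, hh l K τ 0 := by
  have h0 : 0 < (4 ^ l) ^ K := by positivity
  have key : ∀ u, u < (4 ^ l) ^ K → ((∑ τ, hh l K τ u : ℕ) : ℤ) =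
      (∑ n ∈ Finset.range K, (kp (2 ^ l) (n + 1) : ℤ)) +
      (2 ^ l - 1) * ∑ n ∈ Finset.range K, (om (2 ^ l) n : ℤ) +
      ∑ i ∈ Finset.range (K + 1), (kp (2 ^ l) i : ℤ) * ((2 ^ l) ^ (K - i) - 1) := by
    intro u hu
    rw [Fin.sum_univ_succ]
    push_cast
    have e1 : (hh l K 0 u : ℤ) = _ := hY_cast hu
    have e2 : ∑ i : Fin (K + 1), (hh l K i.succ u : ℤ) =
        ∑ i ∈ Finset.range (K + 1), (hP l K i u : ℤ) :=
      Fin.sum_univ_eq_sum_range (fun i => (hP l K i u : ℤ)) (K + 1)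
    have e3 : ∑ i ∈ Finset.range (K + 1), (hP l K i u : ℤ) =
        ∑ i ∈ Finset.range (K + 1), Phi l i u +
        ∑ i ∈ Finset.range (K + 1), (kp (2 ^ l) i : ℤ) * ((2 ^ l) ^ (K - i) - 1) := by
      rw [← Finset.sum_add_distrib]
      refine Finset.sum_congr rfl (fun i hi => ?_)
      exact hP_cast hl (by have := Finset.mem_range.1 hi; omega) hu
    rw [e1, e2, e3]
    have h1 := balance hl hu
    linarith
  zify
  have h1 := key t ht
  have h2 := key 0 h0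
  push_cast at h1 h2
  rw [h1, h2]

theorem hh_ne {l K t : ℕ} (hl : 1 ≤ l) (hK : 1 ≤ K) (ht : t + 1 < (4 ^ l) ^ K) :
    ∃ τ, hh l K τ t ≠ hh l K τ (t + 1) := by
  by_contra hcon
  push Not at hcon
  have h0 := hcon 0
  have h1 := hcon (Fin.succ 0)
  rw [hh_zero] at h0
  rw [hh_succ] at h1
  have e1 := hY_cast (l := l) (K := K) (t := t) (by omega)
  have e2 := hY_cast (l := l) (K := K) ht
  have e3 := hP_cast (l := l) (K := K) (i := 0) (t := t) hl (by omega) (by omega)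
  have e4 := hP_cast (l := l) (K := K) (i := 0) hl (by omega) ht
  have h1' : hP l K 0 t = hP l K 0 (t + 1) := h1
  rw [h0] at e1
  rw [h1'] at e3
  have hy : zy t = zy (t + 1) := by
    rcases lt_trichotomy (zy t) (zy (t + 1)) with h | h | h
    · have := eta_lt (l := l) hK h
      omega
    · exact h
    · have := eta_lt (l := l) hK h
      omega
  have hx : zx t = zx (t + 1) := by
    rw [Phi_zero] at e3 e4
    have ex : ∀ u, Xc l 0 u = zx u := fun u => by simp [Xc]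
    have ey : ∀ u, Yc l 0 u = zy u := fun u => by simp [Yc]
    unfold lam at e3 e4
    rw [ex, ey] at e3 e4
    have h5 : Rf (2 ^ l) (zx t) = Rf (2 ^ l) (zx (t + 1)) := by
      rw [hy] at e3
      omega
    exact le_antisymm ((Rf_le_iff (two_le_pow hl)).1 h5.le) ((Rf_le_iff (two_le_pow hl)).1 h5.ge)
  have := z_inj hx hy
  omega

theorem hh_pair {l K N : ℕ} (hl : 1 ≤ l) (hN : N ≤ (4 ^ l) ^ K) {τ τ' : Fin (K + 2)} (h : τ < τ')
    (θ θ' : ℕ) : ∃ p, Ph (fun t => vl θ (hh l K τ t) - vl θ' (hh l K τ' t)) 0 N p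
      (p + (6 * l + 3)) := by
  have hP' : ∀ (i : Fin (K + 1)) (θ t : ℕ), t < N → vl θ (hh l K i.succ t) =
      if (θ : ℤ) - kp (2 ^ l) i * ((2 ^ l) ^ (K - i) - 1) < Phi l i t then 1 else 0 := by
    intro i θ t ht
    have h1 := hP_cast (l := l) (K := K) (i := i) (t := t) hl (by omega) (by omega)
    rw [hh_succ]
    unfold vl
    refine if_congr ?_ rfl rfl
    zify
    rw [h1]
    constructor <;> intro h <;> linarith
  induction τ' using Fin.cases with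
  | zero => exact absurd h (by simp)
  | succ j =>
    induction τ using Fin.cases with
    | zero =>
      obtain ⟨p, hp⟩ := pair_YP (l := l) (K := K) (j := j) hl
        ((θ' : ℤ) - kp (2 ^ l) j * ((2 ^ l) ^ (K - j) - 1))
        ((∑ n ∈ Finset.range K, (kp (2 ^ l) (n + 1) : ℤ)) - θ - 1) N
      refine ⟨p, hp.congr (fun t _ ht => ?_)⟩
      rw [hP' j θ' t ht]
      congr 1
      rw [hh_zero]
      unfold vl
      refine if_congr ?_ rfl rfl
      have h1 := hY_cast (l := l) (K := K) (t := t) (by omega)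
      zify
      rw [h1]
      constructor <;> intro h <;> linarith
    | succ i =>
      have hij : (i : ℕ) < j := by
        have := Fin.succ_lt_succ_iff.1 h
        exact this
      obtain ⟨p, hp⟩ := pair_PP (l := l) hl hij
        ((θ' : ℤ) - kp (2 ^ l) j * ((2 ^ l) ^ (K - j) - 1))
        ((θ : ℤ) - kp (2 ^ l) i * ((2 ^ l) ^ (K - i) - 1)) N
      refine ⟨p, hp.congr (fun t _ ht => ?_)⟩
      rw [hP' j θ' t ht, hP' i θ t ht]

end LevelRate
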