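import Pool.Agent.LevelRate.System2
import Pool.Agent.LevelRate.Heights

/-!
# The system of unit exchanges
-/

namespace LevelRate

open LevelLower

theorem rate_sys (l : ℕ) (hl : 1 ≤ l) (K : ℕ) (hK : 1 ≤ K) (n : ℕ)
    (hn : 2 * (ce (2 ^ l) K).1 + 3 * (ce (2 ^ l) K).2 ≤ n) :
    ∃ T, (4 ^ l) ^ K ≤ T + 1 ∧ HasSys2 (6 * l + 4) n T := by
  have h4 : 4 ≤ (4 ^ l) ^ K := by
    rw [← pow_mul]
    calc 4 = 4 ^ 1 := by norm_num
      _ ≤ 4 ^ (l * K) := Nat.pow_le_pow_right (by norm_num) (Nat.mul_pos hl hK)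
  obtain ⟨T, h1, h2⟩ := sys_of_heights (N := (4 ^ l) ^ K - 1) (s := 6 * l + 3)
    (k := ∑ τ, hh l K τ 0) (M := n) (LevelRate.hs l K) (hh l K) (by omega)
    (fun τ t ht => hh_le hl (by omega) τ) (fun t ht => sum_hh hl (by omega))
    (fun t ht => hh_ne hl hK (by omega))
    (fun τ τ' hτ θ θ' => hh_pair hl (by omega) hτ θ θ') (sum_hs.trans hn)
  exact ⟨T, by omega, h2⟩

end LevelRate
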